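import Pool.Agent.R253.PQ.Stm

/-!
# PQ-ACL (helper359)

The function `u` itself is Lipschitz along segments: for every `x` and almost every `y` the
segment from `x` to `y` meets the exceptional null set in a null set of parameters.
-/

set_option autoImplicit false
open MeasureTheory Set Metric Finset Filter
open scoped ENNReal Topology

namespace Pool.Agent.R253.PQ

namespace ACL

theorem slice_null (Z : Set ℂ) (hZ : volume Z = 0) (x : ℂ) (t : ℝ) (ht : t ≠ 0) :
    ∀ᵐ y : ℂ, AffineMap.lineMap x y t ∉ Z := by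
  rw [ae_iff]
  simp only [not_not]
  have hsub : {y : ℂ | AffineMap.lineMap x y t ∈ Z} ⊆ AffineMap.homothety x t⁻¹ '' Z := by
    intro y hy
    refine ⟨AffineMap.lineMap x y t, hy, ?_⟩
    rw [AffineMap.homothety_apply, AffineMap.lineMap_apply]
    simp only [vsub_eq_sub, vadd_eq_add, add_sub_cancel_right]
    rw [smul_smul, inv_mul_cancel₀ ht, one_smul, sub_add_cancel]
  refine measure_mono_null hsub ?_
  rw [Measure.addHaar_image_homothety, hZ, mul_zero]

theorem ae_seg (Z : Set ℂ) (hm : MeasurableSet Z) (hZ : volume Z = 0) (x : ℂ) :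
    ∀ᵐ y : ℂ, ∀ᵐ t ∂(volume.restrict (Icc (0:ℝ) 1)), AffineMap.lineMap x y t ∉ Z := by
  have hmeas : MeasurableSet {p : ℂ × ℝ | AffineMap.lineMap x p.1 p.2 ∉ Z} := by
    have hc : Continuous fun p : ℂ × ℝ => (AffineMap.lineMap x p.1 p.2 : ℂ) := by
      simp only [AffineMap.lineMap_apply, vsub_eq_sub, vadd_eq_add]
      fun_prop
    exact (hc.measurable hm).compl
  rw [Measure.ae_ae_comm hmeas]
  have h0 : ∀ᵐ t ∂(volume.restrict (Icc (0:ℝ) 1)), t ≠ 0 := by
    refine ae_restrict_of_ae ?_
    rw [ae_iff]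
    simp
  filter_upwards [h0] with t ht
  exact slice_null Z hZ x t ht

end ACL

theorem t_ACL : S_ACL := by
  intro W hW u g hg hseg κ hκ hae
  refine ⟨u, Filter.Eventually.of_forall fun z => rfl, ?_⟩
  intro a b hab
  -- a convex open neighbourhood of the segment
  have hcomp : IsCompact (segment ℝ a b) := by
    rw [segment_eq_image_lineMap]
    exact isCompact_Icc.image AffineMap.lineMap_continuous
  obtain ⟨δ, hδ, hsub⟩ := hcomp.exists_thickening_subset_open hW hab
  set V : Set ℂ := thickening δ (segment ℝ a b) with hV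
  have hVo : IsOpen V := isOpen_thickening
  have hVc : Convex ℝ V := (convex_segment a b).thickening δ
  have haV : a ∈ V := self_subset_thickening hδ _ (left_mem_segment ℝ a b)
  have hbV : b ∈ V := self_subset_thickening hδ _ (right_mem_segment ℝ a b)
  -- the exceptional set
  set Z : Set ℂ := {z | ENNReal.ofReal κ < g z} ∩ W with hZdef
  have hZm : MeasurableSet Z := (measurableSet_lt measurable_const hg).inter hW.measurableSet
  have hZ : volume Z = 0 := by
    have h := hae
    rw [ae_iff, Measure.restrict_apply₀'] at h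
    · refine measure_mono_null ?_ h
      rintro z ⟨hz, hzW⟩
      exact ⟨not_le.mpr hz, hzW⟩
    · exact hW.measurableSet.nullMeasurableSet
  have hgood : ∀ x ∈ V, ∀ᵐ y : ℂ, y ∈ V → |u x - u y| ≤ κ * dist x y := by
    intro x hx
    filter_upwards [ACL.ae_seg Z hZm hZ x] with y hy hyV
    have hxy : segment ℝ x y ⊆ V := hVc.segment_subset hx hyV
    have h1 := hseg x y (hxy.trans hsub)
    have h2 : ∫⁻ t in Icc (0:ℝ) 1, g (AffineMap.lineMap x y t) ≤ ENNReal.ofReal κ := by
      have h3 : ∫⁻ t in Icc (0:ℝ) 1, g (AffineMap.lineMap x y t) ≤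
          ∫⁻ t in Icc (0:ℝ) 1, ENNReal.ofReal κ := by
        refine lintegral_mono_ae ?_
        filter_upwards [hy, ae_restrict_mem measurableSet_Icc] with t ht htI
        by_contra hcon
        refine ht ⟨not_le.mp hcon, hsub (hxy ?_)⟩
        rw [segment_eq_image_lineMap]
        exact ⟨t, htI, rfl⟩
      refine h3.trans ?_
      rw [lintegral_const, Measure.restrict_apply_univ, Real.volume_Icc]
      simp
    have h4 : ENNReal.ofReal |u x - u y| ≤ ENNReal.ofReal (κ * dist x y) := by
      rw [mul_comm κ, ENNReal.ofReal_mul dist_nonneg]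
      exact h1.trans (mul_le_mul_right h2 _)
    exact (ENNReal.ofReal_le_ofReal_iff (mul_nonneg hκ dist_nonneg)).mp h4
  refine le_of_forall_pos_le_add fun ε hε => ?_
  have hdense := Measure.dense_of_ae ((hgood a haV).and (hgood b hbV))
  have hopen : IsOpen (V ∩ ball b (ε / (2 * κ + 1))) := hVo.inter isOpen_ball
  have hpos : 0 < ε / (2 * κ + 1) := by positivity
  obtain ⟨y, ⟨hyV, hyb⟩, h1, h2⟩ :=
    hdense.inter_open_nonempty _ hopen ⟨b, hbV, mem_ball_self hpos⟩
  have h3 := h1 hyV
  have h4 := h2 hyV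
  rw [mem_ball, dist_comm] at hyb
  have h5 : dist a y ≤ dist a b + dist b y := dist_triangle _ _ _
  have h6 : |u a - u b| ≤ |u a - u y| + |u b - u y| := by
    have := abs_sub_le (u a) (u y) (u b)
    rwa [abs_sub_comm (u y) (u b)] at this
  have h7 : (2 * κ + 1) * dist b y ≤ ε := by
    have := mul_le_mul_of_nonneg_left hyb.le (by positivity : (0:ℝ) ≤ 2 * κ + 1)
    rwa [mul_div_cancel₀ _ (by positivity : (2 * κ + 1) ≠ 0)] at this
  have h8 : κ * dist a y ≤ κ * (dist a b + dist b y) := mul_le_mul_of_nonneg_left h5 hκ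
  have h9 : 0 ≤ dist b y := dist_nonneg
  nlinarith

end Pool.Agent.R253.PQ
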