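import Pool.Agent.R253.PQ.BIG

set_option autoImplicit false
open MeasureTheory Set Metric Finset Filter
open scoped ENNReal Topology

namespace Pool.Agent.R253.PQ

/-- mean oscillation from the oscillation around a constant -/
lemma avg_bound {U : Set ℂ} (h0 : volume U ≠ 0) (hfin : volume U ≠ ⊤)
    {u : ℂ → ℝ} (hu : AEStronglyMeasurable u (volume.restrict U)) {c M : ℝ} (hM : 0 ≤ M)
    (h : ∫⁻ x in U, ENNReal.ofReal |u x - c| ≤ ENNReal.ofReal M * volume U) :
    (∫⁻ x in U, ENNReal.ofReal |u x - ⨍ y in U, u y|) / volume U ≤ ENNReal.ofReal (2 * M) := by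
  haveI : IsFiniteMeasure (volume.restrict U) := ⟨by
    rw [Measure.restrict_apply_univ]; exact hfin.lt_top⟩
  haveI : NeZero (volume.restrict U) := ⟨by
    intro hc
    apply h0
    rw [← Measure.restrict_apply_univ, hc]; rfl⟩
  have hi : Integrable (fun x => u x - c) (volume.restrict U) := by
    refine ⟨hu.sub aestronglyMeasurable_const, ?_⟩
    rw [hasFiniteIntegral_iff_norm]
    simp only [Real.norm_eq_abs]
    exact lt_of_le_of_lt h (ENNReal.mul_lt_top ENNReal.ofReal_lt_top hfin.lt_top)
  have hui : Integrable u (volume.restrict U) := by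
    have := hi.add (integrable_const c)
    refine this.congr (Eventually.of_forall fun x => ?_)
    simp
  have hlt : ∫⁻ x in U, ENNReal.ofReal |u x - c| = ENNReal.ofReal (∫ x in U, |u x - c|) := by
    rw [ofReal_integral_eq_lintegral_ofReal hi.abs (Eventually.of_forall fun x => abs_nonneg _)]
  have hV : 0 < (volume U).toReal := ENNReal.toReal_pos h0 hfin
  have hint : ∫ x in U, |u x - c| ≤ M * (volume U).toReal := by
    rw [hlt] at h
    have : ENNReal.ofReal M * volume U = ENNReal.ofReal (M * (volume U).toReal) := by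
      rw [ENNReal.ofReal_mul hM, ENNReal.ofReal_toReal hfin]
    rw [this] at h
    exact (ENNReal.ofReal_le_ofReal_iff (by positivity)).1 h
  set m := ⨍ y in U, u y with hm
  have hmc : |c - m| ≤ M := by
    have e : m - c = (volume U).toReal⁻¹ * ∫ x in U, (u x - c) := by
      rw [integral_sub hui (integrable_const c), hm, setAverage_eq, smul_eq_mul, mul_sub]
      simp only [integral_const, smul_eq_mul, Measure.real, Measure.restrict_apply_univ]
      rw [← mul_assoc, inv_mul_cancel₀ hV.ne', one_mul]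
    rw [abs_sub_comm, e, abs_mul, abs_of_pos (inv_pos.2 hV)]
    have : |∫ x in U, (u x - c)| ≤ M * (volume U).toReal :=
      (abs_integral_le_integral_abs).trans hint
    calc (volume U).toReal⁻¹ * |∫ x in U, (u x - c)|
        ≤ (volume U).toReal⁻¹ * (M * (volume U).toReal) :=
          mul_le_mul_of_nonneg_left this (inv_nonneg.2 hV.le)
      _ = M := by field_simp
  have hfinal : ∫⁻ x in U, ENNReal.ofReal |u x - m| ≤ ENNReal.ofReal (2 * M) * volume U := by
    calc ∫⁻ x in U, ENNReal.ofReal |u x - m|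
        ≤ ∫⁻ x in U, (ENNReal.ofReal |u x - c| + ENNReal.ofReal M) := by
          refine lintegral_mono fun x => ?_
          rw [← ENNReal.ofReal_add (abs_nonneg _) hM]
          exact ENNReal.ofReal_le_ofReal ((abs_sub_le _ c _).trans (by linarith))
      _ = (∫⁻ x in U, ENNReal.ofReal |u x - c|) + ENNReal.ofReal M * volume U := by
          rw [lintegral_add_right _ measurable_const, lintegral_const,
            Measure.restrict_apply_univ]
      _ ≤ ENNReal.ofReal M * volume U + ENNReal.ofReal M * volume U := add_le_add_left h _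
      _ = ENNReal.ofReal (2 * M) * volume U := by
          rw [← add_mul, ← ENNReal.ofReal_add hM hM, two_mul]
  exact ENNReal.div_le_of_le_mul hfinal

lemma Om_open : IsOpen Om := isOpen_iUnion C_open

/-- the oscillation around a constant in large balls -/
lemma big_osc (hE : S_ELEM) (hB : S_BIG) (hV : S_VOL) {p : ℂ} {r κ : ℝ} {v : ℂ → ℝ}
    (hp : p ∈ Om) (hr : 9 / 10 ≤ r) (hκ : 0 ≤ κ) (hv : SL (Om ∩ ball p (8 * r)) v κ) :
    ∃ c : ℝ, ∫⁻ x in Om ∩ ball p r, ENNReal.ofReal |v x - c| ≤
      ENNReal.ofReal (5 * κ * r) * volume (Om ∩ ball p r) := by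
  obtain ⟨hs1, -, hw, hsum⟩ := hE
  obtain ⟨c, N, hX, hz⟩ := hB p r κ v hp hr hκ hv
  refine ⟨c, ?_⟩
  have hU : MeasurableSet (Om ∩ ball p r) := (Om_open.inter isOpen_ball).measurableSet
  set b : ℕ → ℝ := fun n => κ * (((N + 1 + n : ℕ) : ℝ) + 3) ^ 2 with hb
  have hb0 : ∀ n, 0 ≤ b n := fun n => by rw [hb]; positivity
  have hpt : ∀ x ∈ Om ∩ ball p r, ENNReal.ofReal |v x - c| ≤ ENNReal.ofReal (3 * κ * r) +
      ∑' n : ℕ, (C (N + 1 + n)).indicator (fun _ => ENNReal.ofReal (b n)) x := by
    intro x hx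
    rcases hz x hx with h | ⟨n, hn, hxC, h⟩
    · exact (ENNReal.ofReal_le_ofReal h).trans le_self_add
    · obtain ⟨j, rfl⟩ : ∃ j, n = N + 1 + j := ⟨n - (N + 1), by omega⟩
      refine le_trans ?_ le_add_self
      refine le_trans ?_ (ENNReal.le_tsum j)
      rw [indicator_of_mem hxC]
      exact ENNReal.ofReal_le_ofReal h
  have hCm : ∀ n, MeasurableSet (C n) := fun n => (C_open n).measurableSet
  calc ∫⁻ x in Om ∩ ball p r, ENNReal.ofReal |v x - c|
      ≤ ∫⁻ x in Om ∩ ball p r, (ENNReal.ofReal (3 * κ * r) +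
          ∑' n : ℕ, (C (N + 1 + n)).indicator (fun _ => ENNReal.ofReal (b n)) x) :=
        setLIntegral_mono' hU hpt
    _ = ENNReal.ofReal (3 * κ * r) * volume (Om ∩ ball p r) +
          ∑' n : ℕ, ∫⁻ x in Om ∩ ball p r,
            (C (N + 1 + n)).indicator (fun _ => ENNReal.ofReal (b n)) x := by
        rw [lintegral_add_left measurable_const, lintegral_const, Measure.restrict_apply_univ,
          lintegral_tsum fun n => ((measurable_const.indicator (hCm _)).aemeasurable)]
    _ ≤ ENNReal.ofReal (3 * κ * r) * volume (Om ∩ ball p r) +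
          ∑' n : ℕ, ENNReal.ofReal (κ * (100 * (((N + 1 + n : ℕ) : ℝ) + 2) ^ 3 * wd (N + 1 + n))) := by
        refine add_le_add_right (ENNReal.tsum_le_tsum fun n => ?_) _
        rw [lintegral_indicator (hCm _), lintegral_const, Measure.restrict_apply_univ,
          Measure.restrict_apply (hCm _)] 
        calc ENNReal.ofReal (b n) * volume (C (N + 1 + n) ∩ (Om ∩ ball p r))
            ≤ ENNReal.ofReal (b n) *
              ENNReal.ofReal (10 * (((N + 1 + n : ℕ) : ℝ) + 2) * wd (N + 1 + n)) := by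
              refine mul_le_mul_right ?_ _
              exact (measure_mono inter_subset_left).trans (hV.1 _)
          _ = ENNReal.ofReal (b n * (10 * (((N + 1 + n : ℕ) : ℝ) + 2) * wd (N + 1 + n))) :=
              (ENNReal.ofReal_mul (hb0 n)).symm
          _ ≤ _ := by
              apply ENNReal.ofReal_le_ofReal
              rw [hb]
              simp only
              set y : ℝ := ((N + 1 + n : ℕ) : ℝ) with hy
              have hy0 : 0 ≤ y := Nat.cast_nonneg _
              have hw0 := (hw (N + 1 + n)).1.le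
              have : (y + 3) ^ 2 * (10 * (y + 2)) ≤ 100 * (y + 2) ^ 3 := by nlinarith [sq_nonneg y]
              calc κ * (y + 3) ^ 2 * (10 * (y + 2) * wd (N + 1 + n))
                  = κ * (((y + 3) ^ 2 * (10 * (y + 2))) * wd (N + 1 + n)) := by ring
                _ ≤ κ * ((100 * (y + 2) ^ 3) * wd (N + 1 + n)) :=
                    mul_le_mul_of_nonneg_left (mul_le_mul_of_nonneg_right this hw0) hκ
    _ ≤ ENNReal.ofReal (3 * κ * r) * volume (Om ∩ ball p r) +
          ENNReal.ofReal κ * volume (Om ∩ ball p r) := by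
        refine add_le_add_right ?_ _
        obtain ⟨hs, hle⟩ := hsum N
        have e : ∑' n : ℕ, ENNReal.ofReal
            (κ * (100 * (((N + 1 + n : ℕ) : ℝ) + 2) ^ 3 * wd (N + 1 + n))) =
            ENNReal.ofReal κ * ENNReal.ofReal
              (∑' n : ℕ, 100 * (((N + 1 + n : ℕ) : ℝ) + 2) ^ 3 * wd (N + 1 + n)) := by
          rw [ENNReal.ofReal_tsum_of_nonneg (fun n => by
            have := (hw (N + 1 + n)).1.le
            positivity) hs, ← ENNReal.tsum_mul_left]
          exact tsum_congr fun n => ENNReal.ofReal_mul hκ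
        rw [e]
        refine mul_le_mul_right ?_ _
        exact (ENNReal.ofReal_le_ofReal hle).trans
          (hV.2 N p r ((hw N).2.1.trans (by linarith)) hX)
    _ = ENNReal.ofReal (3 * κ * r + κ) * volume (Om ∩ ball p r) := by
        rw [← add_mul, ← ENNReal.ofReal_add (by positivity) hκ]
    _ ≤ _ := by
        refine mul_le_mul_left (ENNReal.ofReal_le_ofReal ?_) _
        nlinarith

lemma osc (hE : S_ELEM) (hB : S_BIG) (hS : S_SMALL) (hV : S_VOL) {p : ℂ} {r κ : ℝ} {v : ℂ → ℝ}
    (hp : p ∈ Om) (hr : 0 < r) (hκ : 0 ≤ κ) (hv : SL (Om ∩ ball p (8 * r)) v κ) :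
    ∃ c : ℝ, ∫⁻ x in Om ∩ ball p r, ENNReal.ofReal |v x - c| ≤
      ENNReal.ofReal (5 * κ * r) * volume (Om ∩ ball p r) := by
  rcases lt_or_ge r (9 / 10) with h | h
  · refine ⟨v p, ?_⟩
    calc ∫⁻ x in Om ∩ ball p r, ENNReal.ofReal |v x - v p|
        ≤ ∫⁻ _ in Om ∩ ball p r, ENNReal.ofReal (5 * κ * r) := by
          refine setLIntegral_mono' (Om_open.inter isOpen_ball).measurableSet fun x hx => ?_
          apply ENNReal.ofReal_le_ofReal
          have := hS p r κ v hp hr h hκ hv x hx
          nlinarith [mul_nonneg hκ hr.le]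
      _ = _ := by rw [lintegral_const, Measure.restrict_apply_univ]
  · exact big_osc hE hB hV hp h hκ hv

theorem poincare (hE : S_ELEM) (hB : S_BIG) (hS : S_SMALL) (hV : S_VOL) (hSeg : S_SEG)
    (hACL : S_ACL) : WeakPoincare Om := by
  refine ⟨10, by norm_num, 8, by norm_num, fun p hp r hr u hu g hg => ?_⟩
  set U := Om ∩ ball p r with hU
  set W := Om ∩ ball p (8 * r) with hW
  have hWo : IsOpen W := Om_open.inter isOpen_ball
  have hUo : IsOpen U := Om_open.inter isOpen_ball
  have hUW : U ⊆ W := inter_subset_inter_right _ (ball_subset_ball (by linarith))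
  have h0 : volume U ≠ 0 :=
    (hUo.measure_pos volume ⟨p, hp, mem_ball_self hr⟩).ne'
  have hfin : volume U ≠ ⊤ :=
    ((measure_mono inter_subset_right).trans_lt measure_ball_lt_top).ne
  by_cases htop : essSup g (volume.restrict W) = ⊤
  · rw [htop, ENNReal.mul_top (by simp [hr])]
    exact le_top
  · set κ := (essSup g (volume.restrict W)).toReal with hκd
    have hκ : 0 ≤ κ := ENNReal.toReal_nonneg
    have hκe : ENNReal.ofReal κ = essSup g (volume.restrict W) := ENNReal.ofReal_toReal htop
    have hae : ∀ᵐ z ∂(volume.restrict W), g z ≤ ENNReal.ofReal κ := by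
      rw [hκe]; exact ENNReal.ae_le_essSup g
    obtain ⟨v, hvu, hv⟩ := hACL W hWo u g hg.1
      (fun a b hab => hSeg Om u g hg a b (hab.trans inter_subset_left)) κ hκ hae
    obtain ⟨c, hc⟩ := osc hE hB hS hV hp hr hκ hv
    have hum : AEStronglyMeasurable u (volume.restrict U) :=
      (hu.aestronglyMeasurable).mono_measure (Measure.restrict_mono inter_subset_left le_rfl)
    have hc' : ∫⁻ x in U, ENNReal.ofReal |u x - c| ≤ ENNReal.ofReal (5 * κ * r) * volume U := by
      refine le_trans (le_of_eq ?_) hc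
      refine lintegral_congr_ae ?_
      have := ae_restrict_of_ae_restrict_of_subset hUW hvu
      filter_upwards [this] with x hx
      rw [hx]
    have := avg_bound h0 hfin hum (by positivity) hc'
    refine this.trans ?_
    rw [← hκe, ← ENNReal.ofReal_mul (by positivity)]
    apply ENNReal.ofReal_le_ofReal
    nlinarith

theorem not_quasiconvex (hE : S_ELEM) (hM : S_MOM) (hN : S_NQC) : ¬ IsQuasiconvex Om := by
  rintro ⟨K, hK, h⟩
  obtain ⟨k, hF, hA⟩ := hM (K + 1)
  have hin : ∀ n, gam n ∈ Om := fun n =>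
    C_sub_Om n (seg_sub_C n (hE.2.2.1 n).1 (left_mem_segment _ _ _))
  obtain ⟨c, c1, c2, c3, c4, c5⟩ := h (gam 0) (hin 0) (gam (4 * P k)) (hin _)
  have h1 := hN (4 * P k) c c1 c2 c3 c4
  have hd : dist (gam 0) (gam (4 * P k)) = (4 * P k : ℕ) := by
    have e0 : gam 0 = 0 := by
      unfold gam F
      apply Complex.ext <;> simp
    have e1 : gam (4 * P k) = (((4 * P k : ℕ) : ℝ) : ℂ) := by
      unfold gam
      rw [hF]
      apply Complex.ext <;> simp
    rw [e0, e1, dist_zero_left, Complex.norm_real, Real.norm_eq_abs, abs_of_nonneg]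
    positivity
  rw [hd] at c5
  have h2 := h1.trans c5
  have hn0 : (0:ℝ) ≤ (4 * P k : ℕ) := Nat.cast_nonneg _
  rw [ENNReal.ofReal_le_ofReal_iff (mul_nonneg (by linarith) hn0), Finset.sum_sub_distrib] at h2
  simp only [Finset.sum_const, Finset.card_range, nsmul_eq_mul] at h2
  have hP : ∀ k, 1 ≤ P k := by
    intro k
    induction k with
    | zero => exact le_rfl
    | succ k ih => unfold P; nlinarith
  have hn1 : (1:ℝ) ≤ (4 * P k : ℕ) := by
    exact_mod_cast (by have := hP k; omega : 1 ≤ 4 * P k)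
  nlinarith

theorem Om_connected (hE : S_ELEM) : IsConnected Om := by
  refine ⟨⟨gam 0, C_sub_Om 0 (seg_sub_C 0 (hE.2.2.1 0).1 (left_mem_segment _ _ _))⟩, ?_⟩
  refine IsPreconnected.iUnion_of_chain (fun n => (C_convex n).isPreconnected) fun n => ?_
  refine ⟨gam (n + 1), seg_sub_C n (hE.2.2.1 n).1 (right_mem_segment _ _ _), ?_⟩
  exact seg_sub_C (n + 1) (hE.2.2.1 (n + 1)).1 (left_mem_segment _ _ _)

end Pool.Agent.R253.PQ
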