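import Pool.Agent.R253.PQ.Gx

set_option autoImplicit false
open MeasureTheory Set Metric Finset Filter
open scoped ENNReal Topology

namespace Pool.Agent.R253.PQ

lemma floor_win {r x xp : ℝ} {m : ℕ} (hr : 9 / 10 ≤ r) (hx : 0 ≤ x) (h1 : (m:ℝ) ≤ xp)
    (h2 : xp ≤ m + 1) (h : |x - xp| ≤ 2 * r + 1) :
    ((m:ℝ) - 6 * r ≤ ⌊x⌋₊) ∧ ((⌊x⌋₊:ℝ) + 1 ≤ m + 6 * r) := by
  have a1 : (⌊x⌋₊:ℝ) ≤ x := Nat.floor_le hx
  have a2 : x < ⌊x⌋₊ + 1 := Nat.lt_floor_add_one x
  have := abs_le.1 h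
  constructor <;> linarith [this.1, this.2]

/-- the data at the scale `r` around `p` -/
structure Dat (p : ℂ) (r S E D xp : ℝ) (m : ℕ) : Prop where
  hr : 9 / 10 ≤ r
  E0 : 0 ≤ E
  D0 : 0 ≤ D
  ED : E * (1 + D) ≤ r / 100
  Dr : D ≤ 1 / 4 + r
  h1 : (m:ℝ) ≤ xp
  h2 : xp ≤ m + 1
  hp : dist (gx xp) p ≤ 1 / 1000
  hs : ∀ i : ℕ, |(i:ℝ) - m| ≤ 6 * r → |s i - S| ≤ D
  hF : ∀ i j : ℕ, i ≤ j → |(i:ℝ) - m| ≤ 6 * r → |(j:ℝ) - m| ≤ 6 * r →
    |F j - F i - S * (j - i)| ≤ (j - i) / 4 + E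

variable {p : ℂ} {r S E D xp : ℝ} {m : ℕ}

lemma Dat.Er (H : Dat p r S E D xp m) : E ≤ r / 100 := by
  have := H.ED
  have h1 := mul_nonneg H.E0 H.D0
  nlinarith

/-- a parameter whose point is at distance at most `r + 1/100` of `p` is in the window -/
lemma Dat.win (H : Dat p r S E D xp m) {x : ℝ} (h : dist (gx x) p ≤ r + 1 / 100) :
    |x - xp| ≤ 2 * r + 1 := by
  have h1 : |x - p.re| ≤ dist (gx x) p := by
    rw [Complex.dist_eq]
    have := Complex.abs_re_le_norm (gx x - p)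
    simpa [gx_re] using this
  have h2 : |xp - p.re| ≤ dist (gx xp) p := by
    rw [Complex.dist_eq]
    have := Complex.abs_re_le_norm (gx xp - p)
    simpa [gx_re] using this
  have h3 := H.hp
  have h4 := H.hr
  have e : x - xp = (x - p.re) - (xp - p.re) := by ring
  rw [e]
  refine (abs_sub _ _).trans ?_
  linarith

lemma Dat.real (H : Dat p r S E D xp m) {x y : ℝ} (hx : 0 ≤ x) (hxy : x ≤ y)
    (wx : |x - xp| ≤ 2 * r + 1) (wy : |y - xp| ≤ 2 * r + 1) :
    |(gx y).im - (gx x).im - S * (y - x)| ≤ (y - x) / 4 + E := by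
  refine real_SD hx hxy (fun i j hij hi hj => H.hF i j hij ?_ ?_) H.E0
  · have a := floor_win H.hr hx H.h1 H.h2 wx
    have b := floor_win H.hr (hx.trans hxy) H.h1 H.h2 wy
    have c1 : (⌊x⌋₊:ℝ) ≤ i := by exact_mod_cast hi
    have c2 : (i:ℝ) ≤ ⌊y⌋₊ + 1 := by exact_mod_cast hij.trans hj
    rw [abs_le]; constructor <;> linarith [a.1, b.2]
  · have a := floor_win H.hr hx H.h1 H.h2 wx
    have b := floor_win H.hr (hx.trans hxy) H.h1 H.h2 wy
    have c1 : (⌊x⌋₊:ℝ) ≤ j := by exact_mod_cast hi.trans hij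
    have c2 : (j:ℝ) ≤ ⌊y⌋₊ + 1 := by exact_mod_cast hj
    rw [abs_le]; constructor <;> linarith [a.1, b.2]

lemma Dat.slope (H : Dat p r S E D xp m) {x y : ℝ} (hx : 0 ≤ x) (hxy : x ≤ y)
    (wx : |x - xp| ≤ 2 * r + 1) (wy : |y - xp| ≤ 2 * r + 1) {i : ℕ} (h1 : ⌊x⌋₊ ≤ i)
    (h2 : i ≤ ⌊y⌋₊) : |s i| ≤ |S| + D := by
  have a := floor_win H.hr hx H.h1 H.h2 wx
  have b := floor_win H.hr (hx.trans hxy) H.h1 H.h2 wy
  have c1 : (⌊x⌋₊:ℝ) ≤ i := by exact_mod_cast h1
  have c2 : (i:ℝ) ≤ ⌊y⌋₊ := by exact_mod_cast h2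
  have := H.hs i (by rw [abs_le]; constructor <;> linarith [a.1, b.2])
  have e : s i = S + (s i - S) := by ring
  rw [e]
  exact (abs_add_le _ _).trans (by linarith)

lemma sqrt_facts (S : ℝ) : 1 ≤ √(1 + S ^ 2) ∧ |S| ≤ √(1 + S ^ 2) := by
  constructor
  · rw [Real.one_le_sqrt]; nlinarith [sq_nonneg S]
  · rw [← Real.sqrt_sq_eq_abs]; exact Real.sqrt_le_sqrt (by linarith)

lemma abs_mid {a b x c M : ℝ} (h1 : a ≤ x) (h2 : x ≤ b) (ha : |a - c| ≤ M) (hb : |b - c| ≤ M) :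
    |x - c| ≤ M := by
  have := abs_le.1 ha
  have := abs_le.1 hb
  rw [abs_le]; constructor <;> linarith [abs_le.1 ha, abs_le.1 hb, (abs_le.1 ha).1, (abs_le.1 hb).2]

/-- short way from a sliver to the reference point -/
lemma Dat.short (H : Dat p r S E D xp m) (hP : S_PATH) {κ : ℝ} (hκ : 0 ≤ κ) {v : ℂ → ℝ}
    (hv : SL (Om ∩ ball p (8 * r)) v κ) {a x : ℝ} (ha : 0 ≤ a) (hax : a ≤ x)
    (da : dist (gx a) p ≤ r + 1 / 1000) (wx : |x - xp| ≤ 2 * r + 1)
    (hN : (x - a) * √(1 + S ^ 2) ≤ 24 * (E + 1 / 1000)) :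
    |v (gx a) - v (gx x)| ≤ κ * (6 / 10 * r) := by
  have hr := H.hr
  have hED := H.ED
  have hEr := H.Er
  have hE0 := H.E0
  have hD0 := H.D0
  have hDr := H.Dr
  obtain ⟨n1, n2⟩ := sqrt_facts S
  set N := √(1 + S ^ 2) with hNdef
  have wa : |a - xp| ≤ 2 * r + 1 := H.win (by linarith)
  have h0 : 0 ≤ x - a := sub_nonneg.2 hax
  have hS0 := abs_nonneg S
  have g1 : x - a ≤ 24 * (E + 1 / 1000) := le_trans (by nlinarith) hN
  have g2 : (x - a) * |S| ≤ 24 * (E + 1 / 1000) :=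
    le_trans (mul_le_mul_of_nonneg_left n2 h0) hN
  have key := hP p (8 * r) κ (|S| + D) a x v hκ ha hax
    (fun i h1 h2 => H.slope ha hax wa wx h1 h2) (fun y hy1 hy2 => ?_) hv
  · refine key.trans (mul_le_mul_of_nonneg_left ?_ hκ)
    have g3 : (x - a) * D ≤ 24 * (E + 1 / 1000) * D := mul_le_mul_of_nonneg_right g1 hD0
    nlinarith
  · have wy : |y - xp| ≤ 2 * r + 1 := abs_mid hy1 hy2 wa wx
    have k := H.real ha hy1 wa wy
    have k2 : |(gx y).im - (gx a).im| ≤ |S| * (y - a) + ((y - a) / 4 + E) := by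
      have e : (gx y).im - (gx a).im = S * (y - a) + ((gx y).im - (gx a).im - S * (y - a)) := by ring
      rw [e]
      refine (abs_add_le _ _).trans (add_le_add (le_of_eq ?_) k)
      rw [abs_mul, abs_of_nonneg (sub_nonneg.2 hy1)]
    have k3 := dist_gx_le y a
    rw [abs_of_nonneg (sub_nonneg.2 hy1)] at k3
    have k4 : |S| * (y - a) ≤ |S| * (x - a) := mul_le_mul_of_nonneg_left (by linarith) hS0
    have k5 := dist_triangle (gx y) (gx a) p
    nlinarith

/-- the points between two points of the ball `p, r + 1/1000` -/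
lemma Dat.between (H : Dat p r S E D xp m) {a b x : ℝ} (ha : 0 ≤ a) (hax : a ≤ x) (hxb : x ≤ b)
    (da : dist (gx a) p ≤ r + 1 / 1000) (db : dist (gx b) p ≤ r + 1 / 1000) :
    dist (gx x) p < 8 * r := by
  have hr := H.hr
  have hEr := H.Er
  have hE0 := H.E0
  have wa : |a - xp| ≤ 2 * r + 1 := H.win (by linarith)
  have wb : |b - xp| ≤ 2 * r + 1 := H.win (by linarith)
  have wx : |x - xp| ≤ 2 * r + 1 := abs_mid hax hxb wa wb
  have k1 := H.real ha hax wa wx
  have k2 := H.real ha (hax.trans hxb) wa wb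
  have hab : dist (gx b) (gx a) ≤ 2 * r + 2 / 1000 := by
    have := dist_triangle_right (gx b) (gx a) p
    linarith
  have h1 : |b - a| ≤ 2 * r + 2 / 1000 := by
    refine le_trans ?_ hab
    rw [Complex.dist_eq]
    have := Complex.abs_re_le_norm (gx b - gx a)
    simpa [gx_re] using this
  have h2 : |(gx b).im - (gx a).im| ≤ 2 * r + 2 / 1000 := by
    refine le_trans ?_ hab
    rw [Complex.dist_eq]
    have := Complex.abs_im_le_norm (gx b - gx a)
    simpa using this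
  rw [abs_of_nonneg (by linarith : 0 ≤ b - a)] at h1
  have hS0 := abs_nonneg S
  have h3 : |S| * (b - a) ≤ 2 * r + 2 / 1000 + ((b - a) / 4 + E) := by
    have e : S * (b - a) = ((gx b).im - (gx a).im) - ((gx b).im - (gx a).im - S * (b - a)) := by ring
    have : |S| * (b - a) = |S * (b - a)| := by
      rw [abs_mul, abs_of_nonneg (by linarith : 0 ≤ b - a)]
    rw [this, e]
    exact (abs_sub _ _).trans (add_le_add h2 k2)
  have k3 : |(gx x).im - (gx a).im| ≤ |S| * (x - a) + ((x - a) / 4 + E) := by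
    have e : (gx x).im - (gx a).im = S * (x - a) + ((gx x).im - (gx a).im - S * (x - a)) := by ring
    rw [e]
    refine (abs_add_le _ _).trans (add_le_add (le_of_eq ?_) k1)
    rw [abs_mul, abs_of_nonneg (sub_nonneg.2 hax)]
  have k4 : |S| * (x - a) ≤ |S| * (b - a) := mul_le_mul_of_nonneg_left (by linarith) hS0
  have k5 := dist_gx_le x a
  rw [abs_of_nonneg (sub_nonneg.2 hax)] at k5
  have k6 := dist_triangle (gx x) (gx a) p
  linarith

theorem t_BIG (hE : S_ELEM) (hS : S_SD) (hR : S_RAD) (hP : S_PATH) : S_BIG := by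
  obtain ⟨hs1, -, hw, -⟩ := hE
  intro p r κ v hp hr hκ hv
  obtain ⟨m, hm⟩ := mem_iUnion.1 hp
  obtain ⟨xp, h1, h2, h3⟩ := C_gx hm
  obtain ⟨S, E, D, hE0, hD0, hED, hDr, hs, hF⟩ := hS r m hr
  have H : Dat p r S E D xp m := ⟨hr, hE0, hD0, hED, hDr, h1, h2, by
    rw [dist_comm]; exact h3.le.trans (hw m).2.1, hs, hF⟩
  have hxp0 : 0 ≤ xp := (Nat.cast_nonneg m).trans h1
  obtain ⟨n1, n2⟩ := sqrt_facts S
  set N := √(1 + S ^ 2) with hNdef
  have hN0 : 0 < N := by linarith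
  have hex : ∃ n, ∃ X ∈ segment ℝ (gam n) (gam (n + 1)), dist X p < r :=
    ⟨m, gx xp, gx_mem_seg h1 h2, lt_of_le_of_lt H.hp (by linarith)⟩
  classical
  set k := Nat.find hex with hk
  have hkm : k ≤ m := Nat.find_min' hex ⟨gx xp, gx_mem_seg h1 h2, lt_of_le_of_lt H.hp (by linarith)⟩
  have hkspec := Nat.find_spec hex
  have hkmin : ∀ n, n < k → ∀ X ∈ segment ℝ (gam n) (gam (n + 1)), r ≤ dist X p := by
    intro n hn X hX
    by_contra hc
    exact Nat.find_min hex hn ⟨X, hX, not_le.1 hc⟩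
  -- slivers
  have sliver : ∀ n z, n < k → z ∈ C n → dist z p < r → ∃ a : ℝ, (n:ℝ) ≤ a ∧ a ≤ n + 1 ∧
      dist z (gx a) < wd n ∧ dist (gx a) p ≤ r + 1 / 1000 ∧
      ((k:ℝ) - a) * N ≤ 12 * (E + 1 / 1000) ∧ a ≤ k := by
    intro n z hn hz hzp
    obtain ⟨a, ha1, ha2, ha3⟩ := C_gx hz
    have hak : a ≤ k := ha2.trans (by exact_mod_cast hn)
    have ha0 : 0 ≤ a := (Nat.cast_nonneg n).trans ha1
    have da : dist (gx a) p ≤ r + 1 / 1000 := by
      have := dist_triangle (gx a) z p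
      rw [dist_comm (gx a) z] at this
      linarith [(hw n).2.1]
    refine ⟨a, ha1, ha2, ha3, da, ?_, hak⟩
    by_contra hc
    push Not at hc
    have hkp : (k:ℝ) ≤ xp := le_trans (by exact_mod_cast hkm) h1
    have wa : |a - xp| ≤ 2 * r + 1 := H.win (by linarith)
    have wp : |xp - xp| ≤ 2 * r + 1 := by rw [sub_self, abs_zero]; linarith
    have wk : |(k:ℝ) - xp| ≤ 2 * r + 1 := abs_mid hak hkp wa wp
    have key := hR S E (1 / 1000) r a k xp (gx a).im (gx (k:ℝ)).im (gx xp).im p hE0 (by norm_num)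
      hak hkp (H.real ha0 hak wa wk) (H.real (Nat.cast_nonneg k) hkp wk wp) H.hp da hc.le
    have e : (⟨(k:ℝ), (gx (k:ℝ)).im⟩ : ℂ) = gam k := gx_nat k
    rw [e] at key
    have hk1 : k - 1 + 1 = k := by omega
    have := hkmin (k - 1) (by omega) (gam k) (by rw [hk1]; exact right_mem_segment _ _ _)
    linarith
  -- the reference point
  have href : ∃ x : ℝ, (k:ℝ) ≤ x ∧ x ≤ k + 1 ∧ dist (gx x) p < r ∧
      ∀ n z, n < k → z ∈ C n → dist z p < r → (x - k) * N ≤ 12 * (E + 1 / 1000) := by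
    obtain ⟨X0, hX0, hd0⟩ := hkspec
    obtain ⟨x0, q1, q2, rfl⟩ := seg_gx hX0
    by_cases hsl : ∃ n z, n < k ∧ z ∈ C n ∧ dist z p < r
    · obtain ⟨n, z, hn, hz, hzp⟩ := hsl
      obtain ⟨a, ha1, ha2, ha3, da, hka, hak⟩ := sliver n z hn hz hzp
      have ha0 : 0 ≤ a := (Nat.cast_nonneg n).trans ha1
      have hkp : (k:ℝ) ≤ xp := le_trans (by exact_mod_cast hkm) h1
      set x1 := a + 12 * (E + 1 / 1000) / N with hx1
      have hx1a : a ≤ x1 := by
        have : 0 ≤ 12 * (E + 1 / 1000) / N := by positivity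
        linarith
      have hx1N : (x1 - a) * N = 12 * (E + 1 / 1000) := by
        rw [hx1, add_sub_cancel_left, div_mul_cancel₀ _ hN0.ne']
      set xx := min xp x1 with hxx
      have wa : |a - xp| ≤ 2 * r + 1 := H.win (by linarith)
      have wp : |xp - xp| ≤ 2 * r + 1 := by rw [sub_self, abs_zero]; linarith
      have hin : dist (gx xx) p < r := by
        rcases le_total xp x1 with h | h
        · rw [hxx, min_eq_left h]; exact lt_of_le_of_lt H.hp (by linarith)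
        · rw [hxx, min_eq_right h]
          have w1 : |x1 - xp| ≤ 2 * r + 1 := abs_mid hx1a h wa wp
          exact hR S E (1 / 1000) r a x1 xp (gx a).im (gx x1).im (gx xp).im p hE0 (by norm_num)
            hx1a h (H.real ha0 hx1a wa w1) (H.real (ha0.trans hx1a) h w1 wp) H.hp da hx1N.ge
      have hxxa : a ≤ xx := le_min (hak.trans hkp) hx1a
      have hxx0 : 0 ≤ xx := ha0.trans hxxa
      have hkxx : (k:ℝ) ≤ xx := by
        by_contra hc
        push Not at hc
        have hfl : ⌊xx⌋₊ < k := (Nat.floor_lt hxx0).2 hc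
        have := hkmin ⌊xx⌋₊ hfl (gx xx)
          (gx_mem_seg (Nat.floor_le hxx0) (Nat.lt_floor_add_one xx).le)
        linarith
      have hxx1 : (xx - k) * N ≤ 12 * (E + 1 / 1000) := by
        have : xx - k ≤ x1 - a := by
          have := min_le_right xp x1
          linarith
        calc (xx - k) * N ≤ (x1 - a) * N := mul_le_mul_of_nonneg_right this hN0.le
          _ = _ := hx1N
      rcases le_total xx (k + 1) with h | h
      · exact ⟨xx, hkxx, h, hin, fun _ _ _ _ _ => hxx1⟩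
      · refine ⟨x0, q1, q2, hd0, fun _ _ _ _ _ => le_trans ?_ hxx1⟩
        exact mul_le_mul_of_nonneg_right (by linarith) hN0.le
    · refine ⟨x0, q1, q2, hd0, fun n z hn hz hzp => ?_⟩
      exact absurd ⟨n, z, hn, hz, hzp⟩ hsl
  obtain ⟨x, hx1, hx2, hxd, hxs⟩ := href
  have hx0 : 0 ≤ x := (Nat.cast_nonneg k).trans hx1
  have wx : |x - xp| ≤ 2 * r + 1 := H.win (by linarith)
  -- from a point of a tube to the axis
  have toaxis : ∀ n z a, z ∈ C n → dist z p < r → (n:ℝ) ≤ a → a ≤ n + 1 → dist z (gx a) < wd n →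
      dist (gx a) p ≤ r + 1 / 1000 → |v z - v (gx a)| ≤ κ * wd n := by
    intro n z a hz hzp ha1 ha2 ha3 da
    refine (hv z (gx a) ?_).trans (mul_le_mul_of_nonneg_left ha3.le hκ)
    refine subset_inter ?_ ?_
    · exact ((C_convex n).segment_subset hz (seg_sub_C n (hw n).1 (gx_mem_seg ha1 ha2))).trans
        (C_sub_Om n)
    · refine (convex_ball p (8 * r)).segment_subset ?_ ?_ <;> rw [mem_ball] <;> linarith
  refine ⟨v (gx x), k, ⟨gx x, gx_mem_seg hx1 hx2, hxd⟩, ?_⟩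
  rintro z ⟨hz, hzb⟩
  rw [mem_ball] at hzb
  obtain ⟨n, hn⟩ := mem_iUnion.1 hz
  rcases lt_trichotomy n k with hnk | hnk | hnk
  · left
    obtain ⟨a, ha1, ha2, ha3, da, hka, hak⟩ := sliver n z hnk hn hzb
    have ha0 : 0 ≤ a := (Nat.cast_nonneg n).trans ha1
    have e1 := toaxis n z a hn hzb ha1 ha2 ha3 da
    have e2 := H.short hP hκ hv ha0 (hak.trans hx1) da wx (by
      have := hxs n z hnk hn hzb
      have e : (x - a) * N = (x - k) * N + (k - a) * N := by ring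
      rw [e]; linarith)
    have e3 : |v z - v (gx x)| ≤ |v z - v (gx a)| + |v (gx a) - v (gx x)| := abs_sub_le _ _ _
    have e4 : κ * wd n ≤ κ * (1 / 1000) := mul_le_mul_of_nonneg_left (hw n).2.1 hκ
    nlinarith
  · left
    subst hnk
    have : |v z - v (gx x)| ≤ κ * dist z (gx x) := by
      refine hv z (gx x) (subset_inter ?_ ?_)
      · exact ((C_convex _).segment_subset hn (seg_sub_C _ (hw _).1 (gx_mem_seg hx1 hx2))).trans
          (C_sub_Om _)
      · refine (convex_ball p (8 * r)).segment_subset ?_ ?_ <;> rw [mem_ball] <;> linarith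
    have h4 := dist_triangle_right z (gx x) p
    have h5 : κ * dist z (gx x) ≤ κ * (2 * r) := mul_le_mul_of_nonneg_left (by linarith) hκ
    nlinarith
  · right
    refine ⟨n, hnk, hn, ?_⟩
    obtain ⟨a, ha1, ha2, ha3⟩ := C_gx hn
    have da : dist (gx a) p ≤ r + 1 / 1000 := by
      have := dist_triangle (gx a) z p
      rw [dist_comm (gx a) z] at this
      linarith [(hw n).2.1]
    have hxa : x ≤ a := by
      have : (k:ℝ) + 1 ≤ n := by exact_mod_cast hnk
      linarith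
    have e1 := toaxis n z a hn hzb ha1 ha2 ha3 da
    have e2 := hP p (8 * r) κ (n + 2) x a v hκ hx0 hxa (fun i _ hi2 => ?_)
      (fun y hy1 hy2 => H.between hx0 hy1 hy2 (by linarith) da) hv
    · have e3 : |v z - v (gx x)| ≤ |v z - v (gx a)| + |v (gx x) - v (gx a)| := by
        rw [abs_sub_comm (v (gx x)) (v (gx a))]; exact abs_sub_le _ _ _
      have e4 : κ * wd n ≤ κ * (1 / 1000) := mul_le_mul_of_nonneg_left (hw n).2.1 hκ
      have e5 : κ * ((1 + ((n:ℝ) + 2)) * (a - x)) ≤ κ * ((1 + ((n:ℝ) + 2)) * (n + 1)) :=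
        mul_le_mul_of_nonneg_left (mul_le_mul_of_nonneg_left (by linarith) (by positivity)) hκ
      have hn0 : (0:ℝ) ≤ n := Nat.cast_nonneg n
      nlinarith [mul_nonneg hκ hn0]
    · have ha0 : 0 ≤ a := hx0.trans hxa
      have : i ≤ n + 1 := hi2.trans (by
        have := Nat.floor_le_floor ha2
        have e : ⌊(n:ℝ) + 1⌋₊ = n + 1 := by
          have := Nat.floor_natCast (R := ℝ) (n + 1)
          push_cast at this
          exact this
        rwa [e] at this)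
      have : (i:ℝ) ≤ n + 1 := by exact_mod_cast this
      linarith [hs1 i]

end Pool.Agent.R253.PQ
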