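import Mathlib

/-!
Definitions for the counterexample of `MP_dc21ba_an`: a plane domain which supports a weak
`(1,∞)`-Poincaré inequality and is not quasiconvex. See `NOTES.md`.
-/

set_option autoImplicit false
open MeasureTheory Set Metric Finset
open scoped ENNReal Topology

namespace Pool.Agent.R253.PQ

noncomputable section

/-! ### The notions of the problem, in the plane `ℂ` -/

/-- `g` is an upper gradient of `u` on `Ω`: `g` is a Borel function and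
`|u (c 0) - u (c L)| ≤ ∫_c g ds` for every rectifiable curve `c` in `Ω`, parametrised by arc length
on `[0, L]` -/
def IsUpperGradient (Ω : Set ℂ) (u : ℂ → ℝ) (g : ℂ → ℝ≥0∞) : Prop :=
  Measurable g ∧ ∀ (c : ℝ → ℂ) (L : ℝ), 0 ≤ L → HasUnitSpeedOn c (Icc 0 L) →
    (∀ t ∈ Icc 0 L, c t ∈ Ω) → ENNReal.ofReal |u (c 0) - u (c L)| ≤ ∫⁻ t in Icc 0 L, g (c t)

/-- the weak `(1,∞)`-Poincaré inequality for Lebesgue measure on `Ω` -/
def WeakPoincare (Ω : Set ℂ) : Prop :=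
  ∃ C : ℝ, 0 < C ∧ ∃ lam : ℝ, 1 ≤ lam ∧ ∀ p ∈ Ω, ∀ r : ℝ, 0 < r → ∀ u : ℂ → ℝ,
    LocallyIntegrableOn u Ω volume → ∀ g : ℂ → ℝ≥0∞, IsUpperGradient Ω u g →
    (∫⁻ x in Ω ∩ ball p r, ENNReal.ofReal |u x - ⨍ y in Ω ∩ ball p r, u y|) /
        volume (Ω ∩ ball p r) ≤
      ENNReal.ofReal (C * r) * essSup g (volume.restrict (Ω ∩ ball p (lam * r)))

/-- `Ω` is quasiconvex -/
def IsQuasiconvex (Ω : Set ℂ) : Prop :=
  ∃ K : ℝ, 1 ≤ K ∧ ∀ x ∈ Ω, ∀ y ∈ Ω, ∃ c : ℝ → ℂ, ContinuousOn c (Icc 0 1) ∧ c 0 = x ∧ c 1 = y ∧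
    (∀ t ∈ Icc (0:ℝ) 1, c t ∈ Ω) ∧ eVariationOn c (Icc 0 1) ≤ ENNReal.ofReal (K * dist x y)

/-! ### The domain -/

/-- the scales -/
def P : ℕ → ℕ
  | 0 => 1
  | (k + 1) => 40000 * (k + 1) * P k

/-- the slope pattern of level `k`: on consecutive blocks of length `P k` it is
`0, 1, -1, 0, 0, 1, -1, 0, …` -/
def eps (k i : ℕ) : ℤ :=
  if (i / P k) % 4 = 1 then 1 else if (i / P k) % 4 = 2 then -1 else 0

/-- the slope of the polygon on `[i, i + 1]` -/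
def s (i : ℕ) : ℝ := 1 / 1000 * ∑ k ∈ range (i + 1), (eps k i : ℝ)

/-- the height of the polygon at `n` -/
def F (n : ℕ) : ℝ := ∑ i ∈ range n, s i

/-- the vertices of the polygon -/
def gam (n : ℕ) : ℂ := ⟨n, F n⟩

/-- the half widths of the tubes -/
def wd (n : ℕ) : ℝ := (1 / 1000) ^ (4 ^ n)

/-- the `n`-th tube (an open convex set) -/
def C (n : ℕ) : Set ℂ := thickening (wd n) (segment ℝ (gam n) (gam (n + 1)))

/-- the domain -/
def Om : Set ℂ := ⋃ n, C n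

/-- the point with the real parameter `x ≥ 0` on the polygon -/
def gx (x : ℝ) : ℂ := ⟨x, F ⌊x⌋₊ + s ⌊x⌋₊ * (x - ⌊x⌋₊)⟩

/-- `v` is `κ`-Lipschitz along the segments contained in `W` -/
def SL (W : Set ℂ) (v : ℂ → ℝ) (κ : ℝ) : Prop :=
  ∀ a b, segment ℝ a b ⊆ W → |v a - v b| ≤ κ * dist a b

end

end Pool.Agent.R253.PQ
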