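import Pool.Agent.R253.PQ.Stm

/-!
PQ-ELEM: bounds of slopes and widths, and a series.
-/

set_option autoImplicit false
open MeasureTheory Set Metric Finset Filter
open scoped ENNReal Topology

namespace Pool.Agent.R253.PQ

namespace ELEM

theorem P_pos (k : ℕ) : 0 < P k := by
  induction k with
  | zero => simp [P]
  | succ k ih => simp only [P]; positivity

theorem lt_P (k : ℕ) : k < P k := by
  induction k with
  | zero => simp [P]
  | succ k ih => simp only [P]; nlinarith [P_pos k]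

theorem four_P_dvd_succ (k : ℕ) : 4 * P k ∣ P (k + 1) := by
  simp only [P]
  exact ⟨10000 * (k + 1), by ring⟩

theorem four_P_dvd {k j : ℕ} (h : k < j) : 4 * P k ∣ P j := by
  induction j, h using Nat.le_induction with
  | base => exact four_P_dvd_succ k
  | succ j _ ih =>
    exact ih.trans ((Dvd.intro_left 4 rfl).trans (four_P_dvd_succ j))

theorem abs_eps (k i : ℕ) : |(eps k i : ℝ)| ≤ 1 := by
  unfold eps
  split_ifs <;> simp

theorem abs_eps_sub (k i j : ℕ) : |(eps k i : ℝ) - eps k j| ≤ 2 := by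
  have h1 := abs_eps k i
  have h2 := abs_eps k j
  calc |(eps k i : ℝ) - eps k j| ≤ |(eps k i : ℝ)| + |(eps k j : ℝ)| := abs_sub _ _
    _ ≤ 2 := by linarith

theorem eps_eq_zero {k i : ℕ} (h : i < P k) : eps k i = 0 := by
  unfold eps
  rw [Nat.div_eq_of_lt h]
  simp

/-- if the value changes at `i + 1`, then `P k ∣ i + 1` -/
theorem dvd_of_ne {k i : ℕ} (h : eps k (i + 1) ≠ eps k i) : P k ∣ i + 1 := by
  by_contra hd
  apply h
  unfold eps
  rw [Nat.succ_div_of_not_dvd hd]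

theorem not_four_dvd_of_ne {k i : ℕ} (h : eps k (i + 1) ≠ eps k i) : ¬ 4 * P k ∣ i + 1 := by
  intro hd
  apply h
  obtain ⟨q, hq⟩ := hd
  have hP := P_pos k
  have hq0 : 0 < q := by
    rcases Nat.eq_zero_or_pos q with h0 | h0
    · subst h0; simp at hq
    · exact h0
  obtain ⟨q', rfl⟩ : ∃ q', q = q' + 1 := ⟨q - 1, by omega⟩
  have h1 : (i + 1) / P k = 4 * (q' + 1) := by
    rw [hq]
    rw [show 4 * P k * (q' + 1) = P k * (4 * (q' + 1)) by ring, Nat.mul_div_cancel_left _ hP]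
  have h2 : i / P k = 4 * q' + 3 := by
    rw [Nat.div_eq_iff hP]
    constructor
    · nlinarith
    · have : i + 1 = P k * (4 * q' + 4) := by rw [hq]; ring
      have h3 : (4 * q' + 3) * P k + P k = P k * (4 * q' + 4) := by ring
      omega
  unfold eps
  rw [h1, h2]
  have h3 : 4 * (q' + 1) % 4 = 0 := by omega
  have h4 : (4 * q' + 3) % 4 = 3 := by omega
  rw [h3, h4]
  simp

theorem abs_s (i : ℕ) : |s i| ≤ i + 1 := by
  unfold s
  rw [abs_mul]
  have h1 : |∑ k ∈ range (i + 1), (eps k i : ℝ)| ≤ (i + 1 : ℕ) := by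
    refine (Finset.abs_sum_le_sum_abs _ _).trans ?_
    calc ∑ k ∈ range (i + 1), |(eps k i : ℝ)| ≤ ∑ k ∈ range (i + 1), (1 : ℝ) :=
          Finset.sum_le_sum fun k _ => abs_eps k i
      _ = (i + 1 : ℕ) := by simp
  have h2 : |(1 / 1000 : ℝ)| ≤ 1 := by rw [abs_of_pos] <;> norm_num
  calc |(1 / 1000 : ℝ)| * |∑ k ∈ range (i + 1), (eps k i : ℝ)| ≤ 1 * (i + 1 : ℕ) :=
        mul_le_mul h2 h1 (abs_nonneg _) zero_le_one
    _ = i + 1 := by push_cast; ring

theorem abs_s_sub (i : ℕ) : |s (i + 1) - s i| ≤ 1 / 4 := by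
  have h0 : s i = 1 / 1000 * ∑ k ∈ range (i + 1 + 1), (eps k i : ℝ) := by
    unfold s
    rw [Finset.sum_range_succ _ (i + 1)]
    rw [eps_eq_zero (k := i + 1) (i := i) (by have := lt_P (i + 1); omega)]
    simp
  have h1 : s (i + 1) - s i = 1 / 1000 * ∑ k ∈ range (i + 1 + 1),
      ((eps k (i + 1) : ℝ) - eps k i) := by
    rw [h0, Finset.sum_sub_distrib]
    unfold s
    ring
  have h2 : |∑ k ∈ range (i + 1 + 1), ((eps k (i + 1) : ℝ) - eps k i)| ≤ 2 := by
    by_cases hz : ∀ k ∈ range (i + 1 + 1), (eps k (i + 1) : ℝ) - eps k i = 0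
    · rw [Finset.sum_eq_zero hz]; simp
    · push Not at hz
      obtain ⟨k0, hk0, hne⟩ := hz
      have hne' : eps k0 (i + 1) ≠ eps k0 i := by
        intro h; apply hne; rw [h]; simp
      rw [Finset.sum_eq_single_of_mem k0 hk0]
      · exact abs_eps_sub _ _ _
      · intro k _ hkk
        by_contra hne2
        have hne3 : eps k (i + 1) ≠ eps k i := by
          intro h; apply hne2; rw [h]; simp
        rcases lt_or_gt_of_ne hkk with h | h
        · exact not_four_dvd_of_ne hne3 ((four_P_dvd h).trans (dvd_of_ne hne'))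
        · exact not_four_dvd_of_ne hne' ((four_P_dvd h).trans (dvd_of_ne hne3))
  rw [h1, abs_mul, abs_of_pos (by norm_num : (0:ℝ) < 1 / 1000)]
  linarith

theorem wd_pos (n : ℕ) : 0 < wd n := by unfold wd; positivity

theorem wd_succ (n : ℕ) : wd (n + 1) = wd n ^ 4 := by
  unfold wd
  rw [← pow_mul, pow_succ]

theorem wd_le_pow (n : ℕ) : wd n ≤ (1 / 1000) ^ (n + 1) := by
  unfold wd
  apply pow_le_pow_of_le_one (by norm_num) (by norm_num)
  exact Nat.lt_pow_self (by norm_num)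

theorem wd_le (n : ℕ) : wd n ≤ 1 / 1000 := by
  refine (wd_le_pow n).trans ?_
  calc ((1:ℝ) / 1000) ^ (n + 1) ≤ (1 / 1000) ^ 1 :=
        pow_le_pow_of_le_one (by norm_num) (by norm_num) (by omega)
    _ = 1 / 1000 := by norm_num

theorem wd_succ_le (n : ℕ) : wd (n + 1) ≤ wd n := by
  rw [wd_succ]
  have h0 := wd_pos n
  have h1 := wd_le n
  exact pow_le_of_le_one h0.le (by linarith) (by norm_num)

theorem wd_anti : Antitone wd := antitone_nat_of_succ_le wd_succ_le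

theorem pow_bound (n : ℕ) : (n + 3 : ℝ) ≤ 3 * 2 ^ n := by
  induction n with
  | zero => norm_num
  | succ n ih =>
    rw [pow_succ]; push_cast
    have : (1:ℝ) ≤ 2 ^ n := one_le_pow₀ (by norm_num)
    linarith

/-- the main bound of the widths -/
theorem main_bound (m : ℕ) : 100 * (m + 3 : ℝ) ^ 3 * wd m ^ 2 ≤ 1 / 4 * (1 / 2) ^ m := by
  have h0 := wd_pos m
  have h1 : wd m ^ 2 ≤ ((1 / 1000) ^ (m + 1)) ^ 2 := pow_le_pow_left₀ h0.le (wd_le_pow m) 2
  have h2 : (m + 3 : ℝ) ^ 3 ≤ (3 * 2 ^ m) ^ 3 := pow_le_pow_left₀ (by positivity) (pow_bound m) 3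
  calc 100 * (m + 3 : ℝ) ^ 3 * wd m ^ 2 ≤ 100 * (3 * 2 ^ m) ^ 3 * ((1 / 1000) ^ (m + 1)) ^ 2 := by
        gcongr
    _ = 27 / 10000 * (8 / 1000000) ^ m := by
        have e1 : ∀ a b : ℝ, 100 * (3 * b ^ m) ^ 3 * (a ^ (m + 1)) ^ 2
            = 2700 * a ^ 2 * (b ^ 3 * a ^ 2) ^ m := by
          intro a b; rw [mul_pow (b ^ 3)]; ring
        rw [e1]
        norm_num
    _ ≤ 1 / 4 * (1 / 2) ^ m :=
        mul_le_mul (by norm_num) (pow_le_pow_left₀ (by norm_num) (by norm_num) m) (by positivity)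
          (by norm_num)

end ELEM

open ELEM in
theorem t_ELEM : S_ELEM := by
  refine ⟨abs_s, abs_s_sub, fun n => ⟨wd_pos n, wd_le n, ?_⟩, fun N => ?_⟩
  · have h1 := main_bound n
    have h0 := wd_pos n
    have hle := wd_le n
    rw [wd_succ]
    have h2 : 100 * (n + 3 : ℝ) ^ 2 * wd n ^ 2 ≤ 1 := by
      have h3 : (n + 3 : ℝ) ^ 2 ≤ (n + 3 : ℝ) ^ 3 := by
        apply pow_le_pow_right₀ _ (by norm_num)
        have : (0:ℝ) ≤ n := Nat.cast_nonneg n
        linarith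
      have h4 : ((1:ℝ) / 2) ^ n ≤ 1 := pow_le_one₀ (by norm_num) (by norm_num)
      have h5 : 100 * (n + 3 : ℝ) ^ 2 * wd n ^ 2 ≤ 100 * (n + 3 : ℝ) ^ 3 * wd n ^ 2 := by gcongr
      linarith
    calc wd n ^ 4 * (100 * (n + 3 : ℝ) ^ 2) = wd n ^ 2 * (100 * (n + 3 : ℝ) ^ 2 * wd n ^ 2) := by
          ring
      _ ≤ wd n ^ 2 * 1 := by gcongr
      _ ≤ wd n := by nlinarith
  · have hb : ∀ n : ℕ, 100 * ((N + 1 + n : ℕ) + 2 : ℝ) ^ 3 * wd (N + 1 + n)
        ≤ wd N ^ 2 * (1 / 4) * (1 / 2) ^ n := by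
      intro n
      have e1 : N + 1 + n = (N + n) + 1 := by omega
      have h1 := main_bound (N + n)
      have h2 : wd (N + n) ≤ wd N := wd_anti (by omega)
      have h0 := wd_pos (N + n)
      rw [e1, wd_succ]
      have e2 : (((N + n + 1 : ℕ) : ℝ) + 2) = ((N + n : ℕ) : ℝ) + 3 := by push_cast; ring
      rw [e2]
      calc 100 * (((N + n : ℕ) : ℝ) + 3) ^ 3 * wd (N + n) ^ 4
          = wd (N + n) ^ 2 * (100 * (((N + n : ℕ) : ℝ) + 3) ^ 3 * wd (N + n) ^ 2) := by ring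
        _ ≤ wd N ^ 2 * (1 / 4 * (1 / 2) ^ (N + n)) := by gcongr
        _ ≤ wd N ^ 2 * (1 / 4 * (1 / 2) ^ n) := by
            have : ((1:ℝ) / 2) ^ (N + n) ≤ (1 / 2) ^ n :=
              pow_le_pow_of_le_one (by norm_num) (by norm_num) (by omega)
            gcongr
        _ = wd N ^ 2 * (1 / 4) * (1 / 2) ^ n := by ring
    have hnn : ∀ n : ℕ, 0 ≤ 100 * ((N + 1 + n : ℕ) + 2 : ℝ) ^ 3 * wd (N + 1 + n) := by
      intro n
      have := wd_pos (N + 1 + n)
      positivity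
    have hs : Summable (fun n : ℕ => wd N ^ 2 * (1 / 4) * ((1:ℝ) / 2) ^ n) :=
      (summable_geometric_of_lt_one (by norm_num) (by norm_num)).mul_left _
    have hsum := Summable.of_nonneg_of_le hnn hb hs
    refine ⟨hsum, (hsum.tsum_le_tsum hb hs).trans (le_of_eq ?_)⟩
    rw [tsum_mul_left, tsum_geometric_of_lt_one (by norm_num) (by norm_num)]
    norm_num
    ring

end Pool.Agent.R253.PQ
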