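import Pool.Agent.R253.PQ.Stm

set_option autoImplicit false
open MeasureTheory Set Metric Finset Filter
open scoped ENNReal Topology

namespace Pool.Agent.R253.PQ

lemma F_succ (n : ℕ) : F (n + 1) = F n + s n := by
  unfold F; rw [Finset.sum_range_succ]

lemma gx_nat (n : ℕ) : gx (n : ℝ) = gam n := by
  unfold gx gam
  simp

/-- the formula of `gx` on `[n, n+1]` -/
lemma gx_eq {n : ℕ} {x : ℝ} (h1 : (n:ℝ) ≤ x) (h2 : x ≤ n + 1) :
    gx x = ⟨x, F n + s n * (x - n)⟩ := by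
  rcases eq_or_lt_of_le h2 with h | h
  · subst h
    have : gx ((n:ℝ) + 1) = gam (n + 1) := by
      have := gx_nat (n + 1)
      push_cast at this
      exact this
    rw [this]
    unfold gam
    apply Complex.ext
    · simp
    · simp [F_succ]
  · have hf : ⌊x⌋₊ = n := (Nat.floor_eq_iff (le_trans (Nat.cast_nonneg n) h1)).2 ⟨h1, h⟩
    unfold gx
    rw [hf]

lemma gx_mem_seg {n : ℕ} {x : ℝ} (h1 : (n:ℝ) ≤ x) (h2 : x ≤ n + 1) :
    gx x ∈ segment ℝ (gam n) (gam (n + 1)) := by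
  rw [gx_eq h1 h2, segment_eq_image]
  refine ⟨x - n, ⟨by linarith, by linarith⟩, ?_⟩
  unfold gam
  apply Complex.ext
  · simp; ring
  · simp [F_succ]; ring

lemma seg_gx {n : ℕ} {X : ℂ} (h : X ∈ segment ℝ (gam n) (gam (n + 1))) :
    ∃ x : ℝ, (n:ℝ) ≤ x ∧ x ≤ n + 1 ∧ X = gx x := by
  rw [segment_eq_image] at h
  obtain ⟨t, ⟨h0, h1⟩, rfl⟩ := h
  refine ⟨n + t, by linarith, by linarith, ?_⟩
  rw [gx_eq (n := n) (by linarith) (by linarith)]
  unfold gam
  apply Complex.ext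
  · simp; ring
  · simp [F_succ]; ring

lemma C_gx {n : ℕ} {z : ℂ} (h : z ∈ C n) :
    ∃ x : ℝ, (n:ℝ) ≤ x ∧ x ≤ n + 1 ∧ dist z (gx x) < wd n := by
  unfold C at h
  rw [mem_thickening_iff] at h
  obtain ⟨X, hX, hd⟩ := h
  obtain ⟨x, h1, h2, rfl⟩ := seg_gx hX
  exact ⟨x, h1, h2, hd⟩

lemma C_convex (n : ℕ) : Convex ℝ (C n) := (convex_segment _ _).thickening _

lemma C_open (n : ℕ) : IsOpen (C n) := isOpen_thickening

lemma seg_sub_C (n : ℕ) (hw : 0 < wd n) : segment ℝ (gam n) (gam (n + 1)) ⊆ C n :=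
  self_subset_thickening hw _

lemma C_sub_Om (n : ℕ) : C n ⊆ Om := subset_iUnion _ n

/-- the height of the polygon at a real parameter -/
lemma real_SD {S E : ℝ} {x y : ℝ} (hx : 0 ≤ x) (hxy : x ≤ y)
    (h : ∀ i j : ℕ, i ≤ j → ⌊x⌋₊ ≤ i → j ≤ ⌊y⌋₊ + 1 →
      |F j - F i - S * (j - i)| ≤ (j - i) / 4 + E) (hE : 0 ≤ E) :
    |(gx y).im - (gx x).im - S * (y - x)| ≤ (y - x) / 4 + E := by
  have hy : 0 ≤ y := hx.trans hxy
  set i := ⌊x⌋₊ with hi
  set j := ⌊y⌋₊ with hj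
  have a1 : (i:ℝ) ≤ x := Nat.floor_le hx
  have a2 : x < i + 1 := Nat.lt_floor_add_one x
  have b1 : (j:ℝ) ≤ y := Nat.floor_le hy
  have b2 : y < j + 1 := Nat.lt_floor_add_one y
  have hij : i ≤ j := Nat.floor_mono hxy
  rw [gx_eq a1 a2.le, gx_eq b1 b2.le]
  simp only
  have hFi := F_succ i
  have hFj := F_succ j
  have e1 : s i = F (i + 1) - F i := by rw [hFi]; ring
  have e2 : s j = F (j + 1) - F j := by rw [hFj]; ring
  rw [e1, e2]
  rcases Nat.eq_or_lt_of_le hij with h0 | h0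
  · have k := h i (i + 1) (by omega) le_rfl (by omega)
    push_cast at k
    rw [← h0] at b1 b2 ⊢
    have k2 : |F (i + 1) - F i - S| ≤ 1 / 4 + E := by
      convert k using 2 <;> ring
    have e3 : F i + (F (i + 1) - F i) * (y - i) - (F i + (F (i + 1) - F i) * (x - i)) - S * (y - x)
        = (F (i + 1) - F i - S) * (y - x) := by ring
    rw [e3, abs_mul, abs_of_nonneg (sub_nonneg.2 hxy)]
    have h3 : y - x ≤ 1 := by linarith
    have h4 : 0 ≤ y - x := sub_nonneg.2 hxy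
    calc |F (i + 1) - F i - S| * (y - x) ≤ (1 / 4 + E) * (y - x) :=
          mul_le_mul_of_nonneg_right k2 h4
      _ ≤ (y - x) / 4 + E := by nlinarith
  · have k1 := abs_le.1 (h i j (by omega) le_rfl (by omega))
    have k2 := abs_le.1 (h i (j + 1) (by omega) le_rfl le_rfl)
    have k3 := abs_le.1 (h (i + 1) j h0 (by omega) (by omega))
    have k4 := abs_le.1 (h (i + 1) (j + 1) (by omega) (by omega) le_rfl)
    push_cast at k1 k2 k3 k4
    have t0 : 0 ≤ x - i := sub_nonneg.2 a1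
    have t1 : 0 ≤ 1 - (x - i) := by linarith
    have u0 : 0 ≤ y - j := sub_nonneg.2 b1
    have u1 : 0 ≤ 1 - (y - j) := by linarith
    rw [abs_le]
    constructor
    · have := add_nonneg (add_nonneg
        (mul_nonneg (mul_nonneg t1 u1) (by linarith [k1.1] :
          0 ≤ (F j - F i - S * (j - i)) + (((j:ℝ) - i) / 4 + E)))
        (mul_nonneg (mul_nonneg t1 u0) (by linarith [k2.1] :
          0 ≤ (F (j + 1) - F i - S * (j + 1 - i)) + (((j:ℝ) + 1 - i) / 4 + E))))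
        (add_nonneg (mul_nonneg (mul_nonneg t0 u1) (by linarith [k3.1] :
          0 ≤ (F j - F (i + 1) - S * (j - (i + 1))) + (((j:ℝ) - (i + 1)) / 4 + E)))
        (mul_nonneg (mul_nonneg t0 u0) (by linarith [k4.1] :
          0 ≤ (F (j + 1) - F (i + 1) - S * (j + 1 - (i + 1))) + (((j:ℝ) + 1 - (i + 1)) / 4 + E))))
      nlinarith [this]
    · have := add_nonneg (add_nonneg
        (mul_nonneg (mul_nonneg t1 u1) (by linarith [k1.2] :
          0 ≤ -(F j - F i - S * (j - i)) + (((j:ℝ) - i) / 4 + E)))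
        (mul_nonneg (mul_nonneg t1 u0) (by linarith [k2.2] :
          0 ≤ -(F (j + 1) - F i - S * (j + 1 - i)) + (((j:ℝ) + 1 - i) / 4 + E))))
        (add_nonneg (mul_nonneg (mul_nonneg t0 u1) (by linarith [k3.2] :
          0 ≤ -(F j - F (i + 1) - S * (j - (i + 1))) + (((j:ℝ) - (i + 1)) / 4 + E)))
        (mul_nonneg (mul_nonneg t0 u0) (by linarith [k4.2] :
          0 ≤ -(F (j + 1) - F (i + 1) - S * (j + 1 - (i + 1))) + (((j:ℝ) + 1 - (i + 1)) / 4 + E))))
      nlinarith [this]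

lemma dist_gx_le (x y : ℝ) : dist (gx x) (gx y) ≤ |x - y| + |(gx x).im - (gx y).im| := by
  rw [Complex.dist_eq]
  refine (Complex.norm_le_abs_re_add_abs_im _).trans (le_of_eq ?_)
  simp [gx]

lemma gx_re (x : ℝ) : (gx x).re = x := rfl

end Pool.Agent.R253.PQ
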