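import Pool.Agent.R253.PQ.Stm

set_option autoImplicit false
open Finset

namespace Pool.Agent.R253.PQ

theorem mom_P_pos (k : ℕ) : 0 < P k := by
  induction k with
  | zero => simp [P]
  | succ k ih => simp only [P]; positivity

theorem mom_lt_P (k : ℕ) : k < P k := by
  cases k with
  | zero => simp [P]
  | succ k =>
    simp only [P]
    have := mom_P_pos k
    nlinarith

theorem mom_P_dvd {k n : ℕ} (h : k ≤ n) : P k ∣ P n := by
  induction n, h using Nat.le_induction with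
  | base => exact dvd_rfl
  | succ n _ ih => simp only [P]; exact Dvd.dvd.mul_left ih _

theorem mom_P_le {k n : ℕ} (h : k ≤ n) : P k ≤ P n := Nat.le_of_dvd (mom_P_pos n) (mom_P_dvd h)

theorem mom_eps_zero {k i : ℕ} (h : i < P k) : eps k i = 0 := by
  simp [eps, Nat.div_eq_of_lt h]

/-- the sum of the levels `0, …, n - 1` -/
def mom_e (n i : ℕ) : ℤ := ∑ k ∈ range n, eps k i

theorem mom_s {K i : ℕ} (h : i < 4 * P K) : s i = 1 / 1000 * (mom_e (K + 1) i : ℝ) := by
  unfold s mom_e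
  congr 1
  rw [← Int.cast_sum, Int.cast_inj]
  rcases le_total (i + 1) (K + 1) with hle | hle
  · refine Finset.sum_subset (Finset.range_subset_range.2 hle) ?_
    intro k _ hk
    apply mom_eps_zero
    rw [Finset.mem_range, not_lt] at hk
    have := mom_lt_P k
    omega
  · symm
    refine Finset.sum_subset (Finset.range_subset_range.2 hle) ?_
    intro k _ hk
    apply mom_eps_zero
    rw [Finset.mem_range, not_lt] at hk
    have h1 := mom_P_le hk
    have h2 : 4 * P K ≤ P (K + 1) := by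
      simp only [P]
      have := mom_P_pos K
      nlinarith
    omega

theorem mom_eps_add (k i t : ℕ) : eps k (i + t * (4 * P k)) = eps k i := by
  have h : (i + t * (4 * P k)) / P k % 4 = i / P k % 4 := by
    rw [show t * (4 * P k) = (t * 4) * P k by ring, Nat.add_mul_div_right _ _ (mom_P_pos k)]
    omega
  simp [eps, h]

theorem mom_e_add (n i t : ℕ) : mom_e (n + 1) (i + t * (4 * P n)) = mom_e (n + 1) i := by
  unfold mom_e
  refine Finset.sum_congr rfl ?_
  intro k hk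
  obtain ⟨c, hc⟩ := mom_P_dvd (Nat.lt_succ_iff.1 (Finset.mem_range.1 hk))
  rw [hc, show t * (4 * (P k * c)) = (t * c) * (4 * P k) by ring, mom_eps_add]

theorem mom_blocks (g : ℕ → ℝ) (R m : ℕ) :
    ∑ i ∈ range (m * R), g i = ∑ b ∈ range m, ∑ j ∈ range R, g (b * R + j) := by
  induction m with
  | zero => simp
  | succ m ih => rw [Nat.succ_mul, Finset.sum_range_add, ih, Finset.sum_range_succ]

/-- the sum over a period of level `n` -/
noncomputable def mom_T (n : ℕ) (h : ℤ → ℝ) : ℝ := ∑ i ∈ range (4 * P n), h (mom_e (n + 1) i)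

theorem mom_block (n : ℕ) (h : ℤ → ℝ) (b : ℕ) :
    ∑ j ∈ range (P (n + 1)), h (mom_e (n + 1) (b * P (n + 1) + j)) =
      (10000 * (n + 1) : ℕ) * mom_T n h := by
  have hP : P (n + 1) = (10000 * (n + 1)) * (4 * P n) := by simp only [P]; ring
  rw [hP, mom_blocks]
  unfold mom_T
  rw [Finset.sum_congr rfl (g := fun _ => ∑ i ∈ range (4 * P n), h (mom_e (n + 1) i))]
  · simp
  · intro c _
    refine Finset.sum_congr rfl ?_
    intro j _
    rw [show b * (10000 * (n + 1) * (4 * P n)) + (c * (4 * P n) + j) =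
      j + (b * (10000 * (n + 1)) + c) * (4 * P n) by ring, mom_e_add]

theorem mom_T_succ (n : ℕ) (h : ℤ → ℝ) :
    mom_T (n + 1) h = (10000 * (n + 1) : ℕ) *
      (mom_T n h + mom_T n (fun x => h (x + 1)) + mom_T n (fun x => h (x - 1)) + mom_T n h) := by
  have key : ∀ (b : ℕ) (c : ℤ), (∀ j < P (n + 1), eps (n + 1) (b * P (n + 1) + j) = c) →
      ∑ j ∈ range (P (n + 1)), h (mom_e (n + 1 + 1) (b * P (n + 1) + j)) =
        (10000 * (n + 1) : ℕ) * mom_T n (fun x => h (x + c)) := by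
    intro b c hc
    rw [← mom_block n (fun x => h (x + c)) b]
    refine Finset.sum_congr rfl ?_
    intro j hj
    have : mom_e (n + 1 + 1) (b * P (n + 1) + j) =
        mom_e (n + 1) (b * P (n + 1) + j) + eps (n + 1) (b * P (n + 1) + j) := by
      unfold mom_e
      rw [Finset.sum_range_succ]
    rw [this, hc j (Finset.mem_range.1 hj)]
  have hdiv : ∀ b j : ℕ, j < P (n + 1) → (b * P (n + 1) + j) / P (n + 1) = b := by
    intro b j hj
    rw [Nat.add_comm, Nat.add_mul_div_right _ _ (mom_P_pos _), Nat.div_eq_of_lt hj, Nat.zero_add]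
  have h0 := key 0 0 (fun j hj => by simp only [eps, hdiv 0 j hj]; norm_num)
  have h1 := key 1 1 (fun j hj => by simp only [eps, hdiv 1 j hj]; norm_num)
  have h2 := key 2 (-1) (fun j hj => by simp only [eps, hdiv 2 j hj]; norm_num)
  have h3 := key 3 0 (fun j hj => by simp only [eps, hdiv 3 j hj]; norm_num)
  conv_lhs => rw [mom_T]
  rw [mom_blocks]
  simp only [Finset.sum_range_succ _ 3, Finset.sum_range_succ _ 2, Finset.sum_range_succ _ 1,
    Finset.sum_range_succ _ 0, Finset.sum_range_zero] 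
  rw [h0, h1, h2, h3]
  simp only [add_zero, sub_eq_add_neg]
  ring

theorem mom_T_zero (h : ℤ → ℝ) : mom_T 0 h = 2 * h 0 + h 1 + h (-1) := by
  have e0 : mom_e 1 0 = 0 := by simp [mom_e, eps, P]
  have e1 : mom_e 1 1 = 1 := by simp [mom_e, eps, P]
  have e2 : mom_e 1 2 = -1 := by simp [mom_e, eps, P]
  have e3 : mom_e 1 3 = 0 := by simp [mom_e, eps, P]
  have : range (4 * P 0) = range 4 := by simp [P]
  rw [mom_T, this]
  simp only [Finset.sum_range_succ, Finset.sum_range_zero, zero_add, e0, e1, e2, e3]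
  ring

theorem mom_T_add (n : ℕ) (f g : ℤ → ℝ) : mom_T n (fun x => f x + g x) = mom_T n f + mom_T n g := by
  simp [mom_T, Finset.sum_add_distrib]

theorem mom_T_mul (n : ℕ) (c : ℝ) (g : ℤ → ℝ) : mom_T n (fun x => c * g x) = c * mom_T n g := by
  simp [mom_T, Finset.mul_sum]

theorem mom_T_const (n : ℕ) (c : ℝ) : mom_T n (fun _ => c) = c * (4 * P n : ℕ) := by
  simp [mom_T]; ring

theorem mom_T_mono (n : ℕ) (f g : ℤ → ℝ) (h : ∀ x, f x ≤ g x) : mom_T n f ≤ mom_T n g :=
  Finset.sum_le_sum (fun i _ => h _)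

theorem mom_P_real (n : ℕ) :
    ((4 * P (n + 1) : ℕ) : ℝ) = (10000 * (n + 1) : ℕ) * (4 * ((4 * P n : ℕ) : ℝ)) := by
  simp only [P]; push_cast; ring

theorem mom_one (n : ℕ) : mom_T n (fun x => (x : ℝ)) = 0 := by
  induction n with
  | zero => rw [mom_T_zero]; norm_num
  | succ n ih =>
    rw [mom_T_succ]
    have h1 : mom_T n (fun x => ((x + 1 : ℤ) : ℝ)) = mom_T n (fun x => (x : ℝ)) + mom_T n (fun _ => 1) := by
      rw [← mom_T_add]; push_cast; rfl
    have h2 : mom_T n (fun x => ((x - 1 : ℤ) : ℝ)) = mom_T n (fun x => (x : ℝ)) + mom_T n (fun _ => -1) := by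
      rw [← mom_T_add]; push_cast; rfl
    rw [h1, h2, mom_T_const, mom_T_const, ih]; ring

theorem mom_two (n : ℕ) : mom_T n (fun x => (x : ℝ) ^ 2) = (4 * P n : ℕ) * ((n + 1 : ℝ) / 2) := by
  induction n with
  | zero => rw [mom_T_zero]; norm_num [P]
  | succ n ih =>
    rw [mom_T_succ]
    have h12 : mom_T n (fun x => ((x + 1 : ℤ) : ℝ) ^ 2) + mom_T n (fun x => ((x - 1 : ℤ) : ℝ) ^ 2) =
        2 * mom_T n (fun x => (x : ℝ) ^ 2) + mom_T n (fun _ => 2) := by
      rw [← mom_T_mul, ← mom_T_add, ← mom_T_add]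
      congr 1
      funext x
      push_cast
      ring
    rw [mom_T_const] at h12
    rw [show ∀ a b c : ℝ, a + b + c + a = 2 * a + (b + c) from fun a b c => by ring, h12, ih,
      mom_P_real]
    push_cast
    ring

theorem mom_four (n : ℕ) :
    mom_T n (fun x => (x : ℝ) ^ 4) ≤ (4 * P n : ℕ) * ((n + 1 : ℝ) ^ 2) := by
  induction n with
  | zero => rw [mom_T_zero]; norm_num [P]
  | succ n ih =>
    rw [mom_T_succ]
    have h12 : mom_T n (fun x => ((x + 1 : ℤ) : ℝ) ^ 4) + mom_T n (fun x => ((x - 1 : ℤ) : ℝ) ^ 4) =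
        2 * mom_T n (fun x => (x : ℝ) ^ 4) + 12 * mom_T n (fun x => (x : ℝ) ^ 2) +
          mom_T n (fun _ => 2) := by
      rw [← mom_T_mul, ← mom_T_mul, ← mom_T_add, ← mom_T_add, ← mom_T_add]
      congr 1
      funext x
      push_cast
      ring
    rw [mom_T_const, mom_two] at h12
    rw [show ∀ a b c : ℝ, a + b + c + a = 2 * a + (b + c) from fun a b c => by ring, h12,
      mom_P_real, mul_assoc]
    apply mul_le_mul_of_nonneg_left _ (Nat.cast_nonneg _)
    have hp : (0 : ℝ) ≤ ((4 * P n : ℕ) : ℝ) := Nat.cast_nonneg _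
    push_cast at *
    nlinarith [mul_nonneg hp (Nat.cast_nonneg (α := ℝ) n)]

theorem t_MOM : S_MOM := by
  intro A
  obtain ⟨q, hq⟩ := exists_nat_ge (4000 * A)
  obtain ⟨q, hq1, hq⟩ : ∃ q : ℕ, 1 ≤ q ∧ 4000 * A ≤ q := ⟨q + 1, by omega, by push_cast; linarith⟩
  have hqq : 1 ≤ q * q := Nat.mul_pos hq1 hq1
  obtain ⟨K, hK⟩ : ∃ K, K + 1 = q * q := ⟨q * q - 1, by omega⟩
  refine ⟨K, ?_, ?_⟩
  · unfold F
    rw [Finset.sum_congr rfl (fun i hi => mom_s (Finset.mem_range.1 hi)), ← Finset.mul_sum]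
    have := mom_one K
    unfold mom_T at this
    rw [this, mul_zero]
  · rw [Finset.sum_congr rfl (g := fun i => 1 / 1000 * |(mom_e (K + 1) i : ℝ)|)
      (fun i hi => by rw [mom_s (Finset.mem_range.1 hi), abs_mul]; norm_num), ← Finset.mul_sum]
    have hT : (∑ i ∈ range (4 * P K), |(mom_e (K + 1) i : ℝ)|) = mom_T K (fun x => |(x : ℝ)|) := rfl
    rw [hT]
    have hq0 : (0 : ℝ) < q := by exact_mod_cast hq1
    have hpt : ∀ x : ℤ, 1 / q * (x : ℝ) ^ 2 + (-1 / (4 * q ^ 3)) * (x : ℝ) ^ 4 ≤ |(x : ℝ)| := by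
      intro x
      have h1 : (x : ℝ) ^ 2 = |(x : ℝ)| ^ 2 := (sq_abs _).symm
      have h2 : (x : ℝ) ^ 4 = |(x : ℝ)| ^ 4 := by
        rw [show (x : ℝ) ^ 4 = ((x : ℝ) ^ 2) ^ 2 by ring, h1]; ring
      rw [h1, h2]
      set t := |(x : ℝ)| with ht
      have ht0 : 0 ≤ t := abs_nonneg _
      have h3 : t - (1 / q * t ^ 2 + (-1 / (4 * q ^ 3)) * t ^ 4) =
          t * ((4 * q ^ 3 - 4 * q ^ 2 * t + t ^ 3) / (4 * q ^ 3)) := by
        field_simp
        ring
      have h4 : 0 ≤ 4 * (q : ℝ) ^ 3 - 4 * q ^ 2 * t + t ^ 3 := by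
        rcases le_total t q with h | h
        · have : 0 ≤ 4 * (q : ℝ) ^ 2 * (q - t) := by
            apply mul_nonneg (by positivity) (by linarith)
          nlinarith [pow_nonneg ht0 3]
        · nlinarith [mul_nonneg ht0 (sq_nonneg (t - 2 * q)), mul_nonneg hq0.le (sq_nonneg (t - 2 * q)),
            pow_pos hq0 3, mul_nonneg hq0.le (sq_nonneg (t - q)), mul_nonneg ht0 (sq_nonneg (t - q)),
            mul_nonneg (sub_nonneg.2 h) (sq_nonneg (t - q)), sq_nonneg (t - q), sq_nonneg (2 * t - 3 * q),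
            mul_nonneg hq0.le (sq_nonneg (2 * t - 3 * q))]
      have h5 : 0 ≤ t * ((4 * q ^ 3 - 4 * q ^ 2 * t + t ^ 3) / (4 * q ^ 3)) := by positivity
      linarith
    have h6 := mom_T_mono K _ _ hpt
    rw [mom_T_add, mom_T_mul, mom_T_mul, mom_two] at h6
    have h7 := mom_four K
    have hKr : ((K : ℝ) + 1) = q * q := by exact_mod_cast hK
    rw [hKr] at h6 h7
    have hp : (0 : ℝ) ≤ ((4 * P K : ℕ) : ℝ) := Nat.cast_nonneg _
    have h8 : 1 / (q : ℝ) * (((4 * P K : ℕ) : ℝ) * (q * q / 2)) +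
        (-1 / (4 * q ^ 3)) * (((4 * P K : ℕ) : ℝ) * (q * q) ^ 2) ≤ mom_T K (fun x => |(x : ℝ)|) := by
      refine le_trans ?_ h6
      have : (-1 / (4 * (q : ℝ) ^ 3)) ≤ 0 := by
        apply div_nonpos_of_nonpos_of_nonneg (by norm_num) (by positivity)
      have := mul_le_mul_of_nonpos_left h7 this
      linarith
    have h9 : 1 / (q : ℝ) * (((4 * P K : ℕ) : ℝ) * (q * q / 2)) +
        (-1 / (4 * q ^ 3)) * (((4 * P K : ℕ) : ℝ) * (q * q) ^ 2) = ((4 * P K : ℕ) : ℝ) * (q / 4) := by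
      field_simp
      ring
    rw [h9] at h8
    nlinarith

end Pool.Agent.R253.PQ
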