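import Pool.Agent.R253.PQ.Stm

/-!
PQ-NQC: length of the curves in the domain, by first hitting times.
-/

set_option autoImplicit false
open MeasureTheory Set Metric Finset Filter
open scoped ENNReal Topology

namespace Pool.Agent.R253.PQ.NQC

theorem wd_mul (h : S_ELEM) (j : ℕ) : wd j * (j + 2) ≤ 1 / 200 := by
  obtain ⟨-, -, hw, -⟩ := h
  cases j with
  | zero =>
    have := (hw 0).2.1
    have h0 := (hw 0).1
    simp only [Nat.cast_zero, zero_add]
    linarith
  | succ n =>
    have h1 := (hw n).2.2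
    have h2 := (hw n).2.1
    have h3 := (hw (n + 1)).1
    push_cast
    have h4 : wd (n + 1) * ((n:ℝ) + 1 + 2) ≤ wd (n + 1) * (100 * ((n:ℝ) + 3) ^ 2) := by
      apply mul_le_mul_of_nonneg_left _ h3.le
      have : (0:ℝ) ≤ n := Nat.cast_nonneg n
      nlinarith
    linarith

theorem F_succ (j : ℕ) : F (j + 1) = F j + s j := by
  unfold F; rw [Finset.sum_range_succ]

/-- points of the edge -/
theorem seg_pt (j : ℕ) (X : ℂ) (hX : X ∈ segment ℝ (gam j) (gam (j + 1))) :
    ∃ t : ℝ, 0 ≤ t ∧ t ≤ 1 ∧ X.re = j + t ∧ X.im = F j + t * s j := by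
  rw [segment_eq_image] at hX
  obtain ⟨t, ⟨h0, h1⟩, rfl⟩ := hX
  refine ⟨t, h0, h1, ?_, ?_⟩
  · simp [gam]; ring
  · simp [gam, F_succ]; ring

theorem strip (h : S_ELEM) (z : ℂ) (hz : z ∈ Om) (i : ℕ) (hi : z.re = i) :
    |z.im - F i| ≤ 1 / 200 := by
  obtain ⟨j, hj⟩ := mem_iUnion.1 hz
  obtain ⟨X, hX, hd⟩ := mem_thickening_iff.1 hj
  obtain ⟨t, h0, h1, hre, him⟩ := seg_pt j X hX
  have hw := wd_mul h j
  obtain ⟨hs, -, hwd, -⟩ := h
  have hs := hs j
  have hw1 := (hwd j).2.1
  have hw0 := (hwd j).1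
  have d1 : |z.re - X.re| < wd j := by
    refine lt_of_le_of_lt ?_ hd
    rw [← Complex.sub_re, Complex.dist_eq]; exact Complex.abs_re_le_norm _
  have d2 : |z.im - X.im| < wd j := by
    refine lt_of_le_of_lt ?_ hd
    rw [← Complex.sub_im, Complex.dist_eq]; exact Complex.abs_im_le_norm _
  rw [hi, hre] at d1
  rw [him] at d2
  have e1 := abs_lt.1 d1
  have hji : j ≤ i := by
    by_contra hc
    have : (i:ℝ) + 1 ≤ j := by exact_mod_cast (by omega : i + 1 ≤ j)
    linarith [e1.1]
  have hij : i ≤ j + 1 := by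
    by_contra hc
    have : (j:ℝ) + 2 ≤ i := by exact_mod_cast (by omega : j + 2 ≤ i)
    linarith [e1.2]
  have key : ∀ τ : ℝ, |τ| ≤ wd j → |τ * s j| ≤ wd j * (j + 1) := by
    intro τ hτ
    rw [abs_mul]
    exact mul_le_mul hτ hs (abs_nonneg _) hw0.le
  have hcase : j = i ∨ i = j + 1 := by omega
  rcases hcase with rfl | rfl
  · have hk := key t (by rw [abs_le]; constructor <;> linarith [e1.1, e1.2])
    have : z.im - F j = (z.im - (F j + t * s j)) + t * s j := by ring
    rw [this]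
    refine (abs_add_le _ _).trans ?_
    nlinarith
  · push_cast at e1
    have hk := key (1 - t) (by rw [abs_le]; constructor <;> linarith [e1.1, e1.2])
    have : z.im - F (j + 1) = (z.im - (F j + t * s j)) - (1 - t) * s j := by
      rw [F_succ]; ring
    rw [this]
    refine (abs_sub _ _).trans ?_
    nlinarith

end Pool.Agent.R253.PQ.NQC

namespace Pool.Agent.R253.PQ

theorem t_NQC (h : S_ELEM) : S_NQC := by
  intro n c hc h0 h1 hO
  set A : ℕ → Set ℝ := fun i => {t | t ∈ Icc (0:ℝ) 1 ∧ (i:ℝ) ≤ (c t).re} with hA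
  have hcre : ContinuousOn (fun t => (c t).re) (Icc (0:ℝ) 1) :=
    Complex.continuous_re.comp_continuousOn hc
  have hcl : ∀ i, IsClosed (A i) := by
    intro i
    have : A i = Icc (0:ℝ) 1 ∩ (fun t => (c t).re) ⁻¹' (Ici (i:ℝ)) := by
      ext t; simp [hA]
    rw [this]
    exact hcre.preimage_isClosed_of_isClosed isClosed_Icc isClosed_Ici
  have hne : ∀ i, i ≤ n → (A i).Nonempty := by
    intro i hi
    refine ⟨1, ⟨zero_le_one, le_rfl⟩, ?_⟩
    rw [h1]
    simp only [gam]
    exact_mod_cast hi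
  have hbd : ∀ i, BddBelow (A i) := fun i => ⟨0, fun t ht => ht.1.1⟩
  have hmem : ∀ i, i ≤ n → sInf (A i) ∈ A i := fun i hi =>
    (hcl i).csInf_mem (hne i hi) (hbd i)
  have hval : ∀ i, i ≤ n → (c (sInf (A i))).re = i := by
    intro i hi
    have hm := hmem i hi
    have hsub : Icc (0:ℝ) (sInf (A i)) ⊆ Icc 0 1 := Icc_subset_Icc le_rfl hm.1.2
    have hiv := intermediate_value_Icc hm.1.1 (hcre.mono hsub)
    have hi0 : (i:ℝ) ∈ Icc ((c 0).re) ((c (sInf (A i))).re) := by
      refine ⟨?_, hm.2⟩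
      rw [h0]; simp [gam]
    obtain ⟨t, ht, hti⟩ := hiv hi0
    have hti' : (c t).re = i := hti
    have htA : t ∈ A i := ⟨hsub ht, hti'.ge⟩
    have : t = sInf (A i) := le_antisymm ht.2 (csInf_le (hbd i) htA)
    rw [← this]; exact hti'
  set u : ℕ → ℝ := fun i => sInf (A (min i n)) with hu
  have humono : Monotone u := by
    intro i j hij
    have hle : min i n ≤ min j n := min_le_min_right n hij
    apply csInf_le (hbd _)
    have hm := hmem (min j n) (min_le_right _ _)
    refine ⟨hm.1, le_trans ?_ hm.2⟩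
    exact_mod_cast hle
  have hus : ∀ i, u i ∈ Icc (0:ℝ) 1 := fun i => (hmem (min i n) (min_le_right _ _)).1
  refine le_trans ?_ (eVariationOn.sum_le (f := c) (n := n) humono hus)
  have hterm : ∀ i ∈ range n, edist (c (u (i + 1))) (c (u i)) =
      ENNReal.ofReal (dist (c (u (i + 1))) (c (u i))) := fun i _ => edist_dist _ _
  rw [Finset.sum_congr rfl hterm, ← ENNReal.ofReal_sum_of_nonneg (fun i _ => dist_nonneg)]
  apply ENNReal.ofReal_le_ofReal
  apply Finset.sum_le_sum
  intro i hi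
  have hin : i < n := Finset.mem_range.1 hi
  have e1 : min i n = i := min_eq_left hin.le
  have e2 : min (i + 1) n = i + 1 := min_eq_left hin
  have a1 : (c (u i)).re = i := by simp only [hu, e1]; exact hval i hin.le
  have a2 : (c (u (i + 1))).re = ((i + 1 : ℕ):ℝ) := by simp only [hu, e2]; exact hval (i + 1) hin
  have b1 := NQC.strip h (c (u i)) (hO _ (hus i)) i a1
  have b2 := NQC.strip h (c (u (i + 1))) (hO _ (hus (i + 1))) (i + 1) a2
  have b3 : |(c (u (i + 1))).im - (c (u i)).im| ≤ dist (c (u (i + 1))) (c (u i)) := by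
    rw [← Complex.sub_im, Complex.dist_eq]; exact Complex.abs_im_le_norm _
  rw [NQC.F_succ] at b2
  have b4 : |s i| ≤ |(c (u (i + 1))).im - (c (u i)).im| +
      |(c (u (i + 1))).im - (F i + s i)| + |(c (u i)).im - F i| := by
    have : s i = ((c (u (i + 1))).im - (c (u i)).im) - ((c (u (i + 1))).im - (F i + s i)) +
      ((c (u i)).im - F i) := by ring
    calc |s i| = |((c (u (i + 1))).im - (c (u i)).im) - ((c (u (i + 1))).im - (F i + s i)) +
      ((c (u i)).im - F i)| := by rw [← this]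
      _ ≤ |((c (u (i + 1))).im - (c (u i)).im) - ((c (u (i + 1))).im - (F i + s i))| +
        |(c (u i)).im - F i| := abs_add_le _ _
      _ ≤ _ := by gcongr; exact abs_sub _ _
  linarith

end Pool.Agent.R253.PQ
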