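import Pool.Agent.R253.PQ.Stm

/-!
PQ-PATH: moving along the polygon.
-/

set_option autoImplicit false
open MeasureTheory Set Metric Finset Filter
open scoped ENNReal Topology

namespace Pool.Agent.R253.PQ.PATH

theorem F_succ (j : ℕ) : F (j + 1) = F j + s j := by
  unfold F; rw [Finset.sum_range_succ]

/-- the polygon on `[i, i+1]` -/
theorem gx_eq (i : ℕ) (x : ℝ) (h0 : (i:ℝ) ≤ x) (h1 : x ≤ i + 1) :
    gx x = ⟨x, F i + s i * (x - i)⟩ := by
  rcases h1.lt_or_eq with h | h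
  · have : ⌊x⌋₊ = i := by
      rw [Nat.floor_eq_iff ((Nat.cast_nonneg i).trans h0)]
      exact ⟨h0, h⟩
    simp only [gx, this]
  · have hf : ⌊x⌋₊ = i + 1 := by
      rw [h]
      exact_mod_cast Nat.floor_natCast (R := ℝ) (i + 1)
    simp only [gx, hf]
    rw [h, F_succ]
    push_cast
    congr 1
    ring

/-- a short piece -/
theorem piece (hE : S_ELEM) (p : ℂ) (R κ A : ℝ) (v : ℂ → ℝ) (hκ : 0 ≤ κ) (i : ℕ) (hA : |s i| ≤ A)
    (a b : ℝ) (hia : (i:ℝ) ≤ a) (hab : a ≤ b) (hb : b ≤ i + 1)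
    (hd : ∀ x, a ≤ x → x ≤ b → dist (gx x) p < R) (hv : SL (Om ∩ ball p R) v κ) :
    |v (gx a) - v (gx b)| ≤ κ * ((1 + A) * (b - a)) := by
  have ha := gx_eq i a hia (hab.trans hb)
  have hb' := gx_eq i b (hia.trans hab) hb
  have hseg : segment ℝ (gx a) (gx b) ⊆ Om ∩ ball p R := by
    intro z hz
    rw [segment_eq_image] at hz
    obtain ⟨t, ⟨h0, h1⟩, rfl⟩ := hz
    set x := (1 - t) * a + t * b with hx
    have hax : a ≤ x := by rw [hx]; nlinarith
    have hxb : x ≤ b := by rw [hx]; nlinarith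
    have hz : (1 - t) • gx a + t • gx b = gx x := by
      rw [gx_eq i x (hia.trans hax) (hxb.trans hb), ha, hb']
      apply Complex.ext
      · simp [hx]
      · simp [hx]; ring
    simp only
    rw [hz]
    refine ⟨?_, hd x hax hxb⟩
    apply mem_iUnion.2
    refine ⟨i, ?_⟩
    apply self_subset_thickening (hE.2.2.1 i).1
    rw [segment_eq_image]
    refine ⟨x - i, ⟨by linarith, by linarith⟩, ?_⟩
    rw [gx_eq i x (hia.trans hax) (hxb.trans hb)]
    apply Complex.ext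
    · simp [gam]; ring
    · simp [gam, F_succ]; ring
  have h1 := hv _ _ hseg
  refine h1.trans ?_
  apply mul_le_mul_of_nonneg_left _ hκ
  have h2 : dist (gx a) (gx b) ≤ (1 + |s i|) * (b - a) := by
    rw [Complex.dist_eq]
    refine (Complex.norm_le_abs_re_add_abs_im _).trans ?_
    rw [ha, hb']
    simp only [Complex.sub_re, Complex.sub_im]
    have e1 : |a - b| = b - a := by rw [abs_sub_comm, abs_of_nonneg]; linarith
    have e2 : F i + s i * (a - i) - (F i + s i * (b - i)) = s i * (a - b) := by ring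
    rw [e2, abs_mul, e1]
    linarith
  refine h2.trans ?_
  apply mul_le_mul_of_nonneg_right _ (by linarith)
  linarith

end Pool.Agent.R253.PQ.PATH

namespace Pool.Agent.R253.PQ

theorem t_PATH (h : S_ELEM) : S_PATH := by
  intro p R κ A a b v hκ ha hab hA hd hv
  -- induction on the number of integers between
  have key : ∀ n : ℕ, ∀ a b : ℝ, 0 ≤ a → a ≤ b → ⌊b⌋₊ ≤ ⌊a⌋₊ + n →
      (∀ i : ℕ, ⌊a⌋₊ ≤ i → i ≤ ⌊b⌋₊ → |s i| ≤ A) → (∀ x, a ≤ x → x ≤ b → dist (gx x) p < R) →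
      |v (gx a) - v (gx b)| ≤ κ * ((1 + A) * (b - a)) := by
    intro n
    induction n with
    | zero =>
      intro a b ha hab hn hA hd
      have hfl : ⌊a⌋₊ ≤ ⌊b⌋₊ := Nat.floor_le_floor hab
      exact PATH.piece h p R κ A v hκ ⌊a⌋₊ (hA _ le_rfl hfl) a b (Nat.floor_le ha) hab
        (by
          have := Nat.lt_floor_add_one b
          have h2 : (⌊b⌋₊:ℝ) ≤ ⌊a⌋₊ := by exact_mod_cast hn
          linarith) hd hv
    | succ n ih =>
      intro a b ha hab hn hA hd
      have hfl : ⌊a⌋₊ ≤ ⌊b⌋₊ := Nat.floor_le_floor hab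
      rcases le_total b (⌊a⌋₊ + 1) with hb | hb
      · exact PATH.piece h p R κ A v hκ ⌊a⌋₊ (hA _ le_rfl hfl) a b (Nat.floor_le ha) hab hb hd hv
      · set m : ℝ := (⌊a⌋₊:ℝ) + 1 with hm
        have ham : a ≤ m := (Nat.lt_floor_add_one a).le
        have hfm : ⌊m⌋₊ = ⌊a⌋₊ + 1 := by
          rw [hm]; exact_mod_cast Nat.floor_natCast (R := ℝ) (⌊a⌋₊ + 1)
        have h1 := PATH.piece h p R κ A v hκ ⌊a⌋₊ (hA _ le_rfl hfl) a m (Nat.floor_le ha) ham le_rfl
          (fun x hx1 hx2 => hd x hx1 (hx2.trans hb)) hv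
        have h2 := ih m b (ha.trans ham) hb (by rw [hfm]; omega)
          (fun i hi1 hi2 => hA i (by rw [hfm] at hi1; omega) hi2)
          (fun x hx1 hx2 => hd x (ham.trans hx1) hx2)
        have h3 := abs_sub_le (v (gx a)) (v (gx m)) (v (gx b))
        calc |v (gx a) - v (gx b)| ≤ _ := h3
          _ ≤ κ * ((1 + A) * (m - a)) + κ * ((1 + A) * (b - m)) := add_le_add h1 h2
          _ = _ := by ring
  exact key ⌊b⌋₊ a b ha hab (by omega) hA hd

end Pool.Agent.R253.PQ
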