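import Pool.Agent.R253.PQ.Stm

/-!
PQ-RAD: a pure inequality in the plane.
-/

set_option autoImplicit false
open MeasureTheory Set Metric Finset Filter
open scoped ENNReal Topology

namespace Pool.Agent.R253.PQ

namespace RAD

theorem dist_sq' (a b c d : ℝ) : dist (⟨a, b⟩ : ℂ) ⟨c, d⟩ ^ 2 = (a - c) ^ 2 + (b - d) ^ 2 := by
  rw [Complex.dist_eq, ← Complex.normSq_eq_norm_sq, Complex.normSq_apply]
  simp
  ring

theorem key (a' b' e1 e2 E w α β S N : ℝ) (hE : 0 ≤ E) (hw : 0 < w) (hN1 : 1 ≤ N)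
    (hN : N ^ 2 = 1 + S ^ 2) (hα : 0 ≤ α) (hβ : 0 ≤ β) (ha' : a' = α * N) (hb' : b' = β * N)
    (h1 : |e1| ≤ a' / 4 + E) (h2 : |e2| ≤ b' / 4 + E) (h12 : 12 * (E + w) ≤ a') (dZ : ℝ)
    (hdZ0 : 0 ≤ dZ) (hdZ : dZ ^ 2 = β ^ 2 + (S * β + e2) ^ 2) :
    (dZ + 4 * w) ^ 2 ≤ (α + β) ^ 2 + (S * (α + β) + (e1 + e2)) ^ 2 := by
  have hSN : |S| ≤ N := by
    apply abs_le_of_sq_le_sq _ (by linarith)
    rw [hN]; linarith
  have ha0 : 0 ≤ a' := by rw [ha']; positivity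
  have hb0 : 0 ≤ b' := by rw [hb']; positivity
  have hSα : |S * α| ≤ a' := by
    rw [abs_mul, abs_of_nonneg hα, ha', mul_comm]
    exact mul_le_mul_of_nonneg_left hSN hα
  have hSβ : |S * β| ≤ b' := by
    rw [abs_mul, abs_of_nonneg hβ, hb', mul_comm]
    exact mul_le_mul_of_nonneg_left hSN hβ
  have he1 := abs_nonneg e1
  have he2 := abs_nonneg e2
  -- upper bound of dZ
  have hZ : dZ ≤ 5 / 4 * b' + E := by
    have h3 : dZ ≤ b' + |e2| := by
      apply le_of_sq_le_sq _ (by positivity)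
      rw [hdZ]
      have : S * β * e2 ≤ b' * |e2| := by
        calc S * β * e2 ≤ |S * β * e2| := le_abs_self _
          _ = |S * β| * |e2| := abs_mul _ _
          _ ≤ b' * |e2| := mul_le_mul_of_nonneg_right hSβ he2
      have h5 : β ^ 2 + (S * β) ^ 2 = b' ^ 2 := by
        rw [hb']; linear_combination (-β ^ 2) * hN
      nlinarith [sq_abs e2]
    linarith
  -- lower bound of U
  have hU : (3 / 4 * a' - E) ^ 2 ≤ α ^ 2 + (S * α + e1) ^ 2 := by
    have h3 : -(a' * |e1|) ≤ S * α * e1 := by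
      have : |S * α * e1| ≤ a' * |e1| := by
        rw [abs_mul]; exact mul_le_mul_of_nonneg_right hSα he1
      exact (abs_le.1 this).1
    have h5 : α ^ 2 + (S * α) ^ 2 = a' ^ 2 := by
      rw [ha']; linear_combination (-α ^ 2) * hN
    have h6 : (a' - |e1|) ^ 2 ≤ α ^ 2 + (S * α + e1) ^ 2 := by nlinarith [sq_abs e1]
    have h7 : (3 / 4 * a' - E) ^ 2 ≤ (a' - |e1|) ^ 2 := by
      apply pow_le_pow_left₀ <;> linarith
    linarith
  -- scalar product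
  have hUZ : 7 / 16 * (a' * b') - 5 / 4 * E * (a' + b') - E ^ 2
      ≤ α * β + (S * α + e1) * (S * β + e2) := by
    have h3 : -(a' * |e2|) ≤ S * α * e2 := by
      have : |S * α * e2| ≤ a' * |e2| := by
        rw [abs_mul]; exact mul_le_mul_of_nonneg_right hSα he2
      exact (abs_le.1 this).1
    have h4 : -(b' * |e1|) ≤ S * β * e1 := by
      have : |S * β * e1| ≤ b' * |e1| := by
        rw [abs_mul]; exact mul_le_mul_of_nonneg_right hSβ he1
      exact (abs_le.1 this).1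
    have h5 : -(|e1| * |e2|) ≤ e1 * e2 := by
      rw [← abs_mul]; exact neg_abs_le _
    have h6 : α * β + S * α * (S * β) = a' * b' := by
      rw [ha', hb']
      linear_combination (-α * β) * hN
    have h7 : |e1| * |e2| ≤ (a' / 4 + E) * (b' / 4 + E) :=
      mul_le_mul h1 h2 he2 (by positivity)
    have h8 : a' * |e2| ≤ a' * (b' / 4 + E) := mul_le_mul_of_nonneg_left h2 ha0
    have h9 : b' * |e1| ≤ b' * (a' / 4 + E) := mul_le_mul_of_nonneg_left h1 hb0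
    nlinarith
  have hexp : (α + β) ^ 2 + (S * (α + β) + (e1 + e2)) ^ 2
      = (α ^ 2 + (S * α + e1) ^ 2) + 2 * (α * β + (S * α + e1) * (S * β + e2)) + dZ ^ 2 := by
    rw [hdZ]; ring
  rw [hexp]
  have hwZ : w * dZ ≤ w * (5 / 4 * b' + E) := mul_le_mul_of_nonneg_left hZ hw.le
  -- final
  have hb : 0 ≤ b' * (7 / 8 * a' - 5 / 2 * E - 10 * w) := by
    apply mul_nonneg hb0; linarith
  have hrest : 0 ≤ (3 / 4 * a' - E) ^ 2 - 5 / 2 * E * a' - 2 * E ^ 2 - 8 * w * E - 16 * w ^ 2 := by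
    obtain ⟨d, hd⟩ : ∃ d, a' = 12 * (E + w) + d := ⟨a' - 12 * (E + w), by ring⟩
    have hd0 : 0 ≤ d := by linarith
    rw [hd]
    have h1 : 0 ≤ E * w := by positivity
    have h2 : 0 ≤ E * d := by positivity
    have h3 : 0 ≤ d * w := by positivity
    have h4 := sq_nonneg d
    have h5 := sq_nonneg E
    have h6 := sq_nonneg w
    ring_nf
    linarith
  have e3 : (dZ + 4 * w) ^ 2 = dZ ^ 2 + 8 * (w * dZ) + 16 * w ^ 2 := by ring
  rw [e3]
  linarith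

end RAD

theorem t_RAD : S_RAD := by
  intro S E w r a x y fa fx fy p hE hw hax hxy h1 h2 hY hA h12
  set N := √(1 + S ^ 2) with hNdef
  have hN : N ^ 2 = 1 + S ^ 2 := Real.sq_sqrt (by positivity)
  have hN1 : 1 ≤ N := by
    rw [hNdef, Real.one_le_sqrt]; nlinarith [sq_nonneg S]
  have hα : 0 ≤ x - a := by linarith
  have hβ : 0 ≤ y - x := by linarith
  have hZ2 := RAD.dist_sq' y fy x fx
  have hW2 := RAD.dist_sq' y fy a fa
  have hk := RAD.key ((x - a) * N) ((y - x) * N) (fx - fa - S * (x - a)) (fy - fx - S * (y - x)) E w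
    (x - a) (y - x) S N hE hw hN1 hN hα hβ rfl rfl (by nlinarith) (by nlinarith) h12
    (dist (⟨y, fy⟩ : ℂ) ⟨x, fx⟩) dist_nonneg (by rw [hZ2]; ring)
  have hk2 : dist (⟨y, fy⟩ : ℂ) ⟨x, fx⟩ + 4 * w ≤ dist (⟨y, fy⟩ : ℂ) ⟨a, fa⟩ := by
    apply le_of_sq_le_sq _ dist_nonneg
    rw [hW2]
    refine hk.trans (le_of_eq ?_)
    ring
  have ht1 : dist (⟨y, fy⟩ : ℂ) ⟨a, fa⟩ ≤ dist (⟨y, fy⟩ : ℂ) p + dist (⟨a, fa⟩ : ℂ) p :=
    dist_triangle_right _ _ _
  have ht2 : dist (⟨x, fx⟩ : ℂ) p ≤ dist (⟨y, fy⟩ : ℂ) ⟨x, fx⟩ + dist (⟨y, fy⟩ : ℂ) p :=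
    dist_triangle_left _ _ _
  linarith

end Pool.Agent.R253.PQ
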