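import Pool.Agent.R253.PQ.Stm

/-!
Piece SD of project PQ (helper451).
-/

set_option autoImplicit false
open MeasureTheory Set Metric Finset Filter
open scoped ENNReal Topology

namespace Pool.Agent.R253.PQ

namespace SD451

lemma P_pos (k : ℕ) : 0 < P k := by
  induction k with
  | zero => simp [P]
  | succ k ih => simp only [P]; positivity

lemma lt_P (k : ℕ) : k < P k := by
  induction k with
  | zero => simp [P]
  | succ k ih =>
    simp only [P]
    have h := P_pos k
    nlinarith

lemma four_dvd (j t : ℕ) : 4 * P j ∣ P (j + t + 1) := by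
  induction t with
  | zero =>
    simp only [P]
    exact ⟨10000 * (j + 1), by ring⟩
  | succ t ih =>
    have h : P (j + (t + 1) + 1) = 40000 * (j + t + 1 + 1) * P (j + t + 1) := rfl
    rw [h]
    exact Dvd.dvd.mul_left ih _

lemma four_dvd' (j k : ℕ) (h : j < k) : 4 * P j ∣ P k := by
  obtain ⟨t, rfl⟩ := Nat.exists_eq_add_of_lt h
  exact four_dvd j t

lemma eps_abs (k i : ℕ) : |eps k i| ≤ 1 := by
  unfold eps
  split_ifs <;> simp

lemma eps_zero (k i : ℕ) (h : i < P k) : eps k i = 0 := by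
  unfold eps
  rw [Nat.div_eq_of_lt h]
  simp

/-- the increment vanishes if `P k` does not divide `i+1` -/
lemma eps_succ (k i : ℕ) (h : ¬ P k ∣ i + 1) : eps k (i + 1) = eps k i := by
  unfold eps
  rw [Nat.succ_div_of_not_dvd h]

/-- the increment vanishes if `4 * P k` divides `i+1` -/
lemma eps_succ' (k i : ℕ) (h : 4 * P k ∣ i + 1) : eps k (i + 1) = eps k i := by
  have hp := P_pos k
  obtain ⟨a, ha⟩ := h
  have h1 : (i + 1) / P k = 4 * a := by
    rw [ha, show 4 * P k * a = P k * (4 * a) by ring]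
    exact Nat.mul_div_cancel_left _ hp
  have h2 : (i + 1) / P k = i / P k + 1 :=
    Nat.succ_div_of_dvd ⟨4 * a, by rw [ha]; ring⟩
  unfold eps
  have h3 : (i + 1) / P k % 4 = 0 := by omega
  have h4 : i / P k % 4 = 3 := by omega
  rw [h3, h4]
  simp

/-- the jump of the upper part -/
lemma up_jump (k K i : ℕ) :
    |∑ j ∈ Finset.Ico k K, (eps j (i + 1) - eps j i)| ≤ 2 := by
  by_cases h : ∃ j ∈ Finset.Ico k K, eps j (i + 1) - eps j i ≠ 0
  · obtain ⟨j, hj, hne⟩ := h
    rw [Finset.sum_eq_single_of_mem j hj]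
    · have h1 := eps_abs j (i + 1)
      have h2 := eps_abs j i
      rw [abs_le] at *
      omega
    · intro t ht htj
      by_contra hne'
      have hdj : P j ∣ i + 1 := by
        by_contra hc
        exact hne (by rw [eps_succ j i hc]; ring)
      have hdt : P t ∣ i + 1 := by
        by_contra hc
        exact hne' (by rw [eps_succ t i hc]; ring)
      rcases Nat.lt_or_gt_of_ne htj with hlt | hgt
      · exact hne' (by rw [eps_succ' t i ((four_dvd' t j hlt).trans hdj)]; ring)
      · exact hne (by rw [eps_succ' j i ((four_dvd' j t hgt).trans hdt)]; ring)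
  · push Not at h
    rw [Finset.sum_eq_zero h]
    simp

lemma up_jump0 (k K i : ℕ) (h : ¬ P k ∣ i + 1) :
    ∑ j ∈ Finset.Ico k K, (eps j (i + 1) - eps j i) = 0 := by
  apply Finset.sum_eq_zero
  intro j hj
  rw [Finset.mem_Ico] at hj
  have hd : P k ∣ P j := by
    rcases Nat.eq_or_lt_of_le hj.1 with h1 | h1
    · rw [h1]
    · exact (Dvd.intro_left 4 rfl).trans (four_dvd' k j h1)
  rw [eps_succ j i (fun hc => h (hd.trans hc))]
  ring

/-- the variation of the upper part -/
lemma up_var (k K i t : ℕ) :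
    |∑ j ∈ Finset.Ico k K, (eps j (i + t) - eps j i)| ≤
      2 * (((i + t) / P k : ℕ) - (i / P k : ℕ) : ℤ) := by
  induction t with
  | zero => simp
  | succ t ih =>
    have h1 : ∑ j ∈ Finset.Ico k K, (eps j (i + (t + 1)) - eps j i)
        = ∑ j ∈ Finset.Ico k K, (eps j (i + t + 1) - eps j (i + t))
          + ∑ j ∈ Finset.Ico k K, (eps j (i + t) - eps j i) := by
      rw [← Finset.sum_add_distrib]
      apply Finset.sum_congr rfl
      intro j _
      rw [show i + (t + 1) = i + t + 1 by ring]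
      ring
    rw [h1]
    by_cases hd : P k ∣ i + t + 1
    · have h2 : (i + (t + 1)) / P k = (i + t) / P k + 1 := Nat.succ_div_of_dvd hd
      have h3 := up_jump k K (i + t)
      rw [h2]
      have h4 := abs_add_le (∑ j ∈ Finset.Ico k K, (eps j (i + t + 1) - eps j (i + t)))
        (∑ j ∈ Finset.Ico k K, (eps j (i + t) - eps j i))
      omega
    · have h2 : (i + (t + 1)) / P k = (i + t) / P k := Nat.succ_div_of_not_dvd hd
      rw [h2, up_jump0 k K (i + t) hd, zero_add]
      exact ih

/-- the window version -/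
lemma up_window (k K i m : ℕ) (h1 : i < m + 6 * P k) (h2 : m < i + 6 * P k) :
    |∑ j ∈ Finset.Ico k K, (eps j i - eps j m)| ≤ 12 := by
  have hp := P_pos k
  rcases Nat.le_total m i with h | h
  · obtain ⟨t, rfl⟩ := Nat.exists_eq_add_of_le h
    have h3 := up_var k K m t
    have h4 : (m + t) / P k ≤ m / P k + 6 := by
      rw [← Nat.add_mul_div_right m 6 hp]
      apply Nat.div_le_div_right
      omega
    omega
  · obtain ⟨t, rfl⟩ := Nat.exists_eq_add_of_le h
    have h3 := up_var k K i t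
    have h4 : (i + t) / P k ≤ i / P k + 6 := by
      rw [← Nat.add_mul_div_right i 6 hp]
      apply Nat.div_le_div_right
      omega
    have h5 : ∑ j ∈ Finset.Ico k K, (eps j i - eps j (i + t))
        = - ∑ j ∈ Finset.Ico k K, (eps j (i + t) - eps j i) := by
      rw [← Finset.sum_neg_distrib]
      apply Finset.sum_congr rfl
      intro j _
      ring
    rw [h5, abs_neg]
    omega

/-- the partial sums of one level -/
lemma T_form (k n : ℕ) : ∑ l ∈ Finset.range n, eps k l =
    max 0 (min (((n % (P k * 4) : ℕ) : ℤ) - P k) (3 * P k - ((n % (P k * 4) : ℕ) : ℤ))) := by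
  have hp := P_pos k
  induction n with
  | zero => simp
  | succ n ih =>
    rw [Finset.sum_range_succ, ih]
    have hc : n % (P k * 4) < P k * 4 := Nat.mod_lt _ (by omega)
    have hdiv : n / P k % 4 = n % (P k * 4) / P k := (Nat.mod_mul_right_div_self n (P k) 4).symm
    have hsucc : (n + 1) % (P k * 4) = (n % (P k * 4) + 1) % (P k * 4) := by
      rw [Nat.mod_add_mod]
    have he : eps k n = if n % (P k * 4) / P k = 1 then 1 else
        if n % (P k * 4) / P k = 2 then -1 else 0 := by
      unfold eps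
      rw [hdiv]
    rw [hsucc]
    generalize n % (P k * 4) = c at *
    generalize P k = p at *
    have hq0 := Nat.div_add_mod c p
    have hq1 := Nat.mod_lt c hp
    have hq3 : c / p < 4 := by
      rw [Nat.div_lt_iff_lt_mul hp]
      omega
    have hcases : c / p = 0 ∨ c / p = 1 ∨ c / p = 2 ∨ c / p = 3 := by omega
    by_cases h2 : c + 1 = p * 4
    · have h3 : (c + 1) % (p * 4) = 0 := by rw [h2, Nat.mod_self]
      rw [h3, he]
      rcases hcases with h | h | h | h <;> rw [h] at hq0 ⊢ <;> simp <;> omega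
    · have h3 : (c + 1) % (p * 4) = c + 1 := Nat.mod_eq_of_lt (by omega)
      rw [h3, he]
      rcases hcases with h | h | h | h <;> rw [h] at hq0 ⊢ <;> simp <;> omega

lemma T_bound (k n : ℕ) : 0 ≤ ∑ l ∈ Finset.range n, eps k l ∧
    ∑ l ∈ Finset.range n, eps k l ≤ P k := by
  have hp := P_pos k
  rw [T_form]
  omega

lemma s_eq (K i : ℕ) (h : i < K) :
    s i = 1 / 1000 * ((∑ j ∈ Finset.range K, eps j i : ℤ) : ℝ) := by
  unfold s
  rw [← Finset.sum_range_add_sum_Ico (fun j => eps j i) (show i + 1 ≤ K from h)]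
  have h0 : ∑ j ∈ Finset.Ico (i + 1) K, eps j i = 0 := by
    apply Finset.sum_eq_zero
    intro j hj
    rw [Finset.mem_Ico] at hj
    apply eps_zero
    have := lt_P j
    omega
  rw [h0]
  push_cast
  ring

lemma sum_P (n : ℕ) : ∑ t ∈ Finset.range (n + 1), P t ≤ 2 * P n := by
  induction n with
  | zero => simp [P]
  | succ n ih =>
    rw [Finset.sum_range_succ]
    have h : P (n + 1) = 40000 * (n + 1) * P n := rfl
    have h2 : 2 * P n ≤ P (n + 1) := by
      rw [h]
      apply Nat.mul_le_mul_right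
      omega
    omega

lemma low_abs (k i : ℕ) : |∑ j ∈ Finset.range k, eps j i| ≤ k := by
  refine (Finset.abs_sum_le_sum_abs _ _).trans ?_
  refine (Finset.sum_le_sum (fun j _ => eps_abs j i)).trans ?_
  simp

lemma exists_k (r : ℝ) (hr : 9 / 10 ≤ r) : ∃ k : ℕ, r < P (k + 1) ∧ (k = 0 ∨ (P k : ℝ) ≤ r) := by
  have hex : ∃ k : ℕ, r < P (k + 1) := by
    obtain ⟨n, hn⟩ := exists_nat_gt r
    refine ⟨n, hn.trans ?_⟩
    have := lt_P (n + 1)
    have h2 : n < P (n + 1) := by omega
    exact_mod_cast h2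
  classical
  refine ⟨Nat.find hex, Nat.find_spec hex, ?_⟩
  rcases Nat.eq_zero_or_pos (Nat.find hex) with h | h
  · exact Or.inl h
  · right
    obtain ⟨t, ht⟩ := Nat.exists_eq_add_of_lt h
    have h2 : ¬ (r < P (t + 1)) := Nat.find_min hex (by omega)
    rw [ht]
    have h3 : 0 + t + 1 = t + 1 := by ring
    rw [h3]
    exact not_lt.mp h2

end SD451

open SD451 in
theorem t_SD : S_SD := by
  intro r m hr
  obtain ⟨k, hk1, hk2⟩ := exists_k r hr
  set K := m + ⌈6 * r⌉₊ + k + 5 with hK
  set V : ℕ → ℤ := fun i => ∑ j ∈ Finset.Ico k K, eps j i with hV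
  have hkK : k < K := by omega
  -- window
  have hwin : ∀ i : ℕ, |(i:ℝ) - m| ≤ 6 * r → i < K ∧ |V i - V m| ≤ 14 := by
    intro i hi
    rw [abs_le] at hi
    have hceil := Nat.le_ceil (6 * r)
    have h1 : i < K := by
      have : (i:ℝ) ≤ ((m + ⌈6 * r⌉₊ : ℕ) : ℝ) := by push_cast; linarith [hi.2]
      have h2 : i ≤ m + ⌈6 * r⌉₊ := by exact_mod_cast this
      omega
    refine ⟨h1, ?_⟩
    have h3 : i < m + 6 * P (k + 1) := by
      have : (i:ℝ) < ((m + 6 * P (k + 1) : ℕ) : ℝ) := by push_cast; linarith [hi.2]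
      exact_mod_cast this
    have h4 : m < i + 6 * P (k + 1) := by
      have : (m:ℝ) < ((i + 6 * P (k + 1) : ℕ) : ℝ) := by push_cast; linarith [hi.1]
      exact_mod_cast this
    have h5 := up_window (k + 1) K i m h3 h4
    have h6 : V i - V m = (eps k i - eps k m) + ∑ j ∈ Finset.Ico (k + 1) K, (eps j i - eps j m) := by
      simp only [hV]
      rw [Finset.sum_eq_sum_Ico_succ_bot hkK, Finset.sum_eq_sum_Ico_succ_bot hkK,
        Finset.sum_sub_distrib]
      ring
    rw [h6]
    have h7 := eps_abs k i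
    have h8 := eps_abs k m
    rw [abs_le] at *
    omega
  have hs : ∀ i : ℕ, i < K → s i = 1 / 1000 * ((∑ j ∈ Finset.range k, eps j i : ℤ) : ℝ)
      + 1 / 1000 * (V i : ℝ) := by
    intro i hi
    rw [s_eq K i hi, ← Finset.sum_range_add_sum_Ico (fun j => eps j i) hkK.le]
    push_cast
    simp only [hV]
    push_cast
    ring
  refine ⟨1 / 1000 * (V m : ℝ), 1 / 1000 * ((∑ t ∈ Finset.range k, P t : ℕ) : ℝ),
    1 / 1000 * (16 + (k:ℝ)), by positivity, by positivity, ?_, ?_, ?_, ?_⟩
  · -- E (1 + D) ≤ r / 100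
    rcases Nat.eq_zero_or_pos k with h0 | h0
    · subst h0
      simp
      linarith
    · obtain ⟨t, rfl⟩ : ∃ t, k = t + 1 := ⟨k - 1, by omega⟩
      have h1 : ((P (t + 1) : ℕ) : ℝ) ≤ r := by
        rcases hk2 with h | h
        · omega
        · exact h
      have h2 : P (t + 1) = 40000 * (t + 1) * P t := rfl
      have h3 : (40000 * ((t:ℝ) + 1) * (P t : ℝ)) ≤ r := by
        rw [h2] at h1
        push_cast at h1
        exact h1
      have h4 : ((∑ u ∈ Finset.range (t + 1), P u : ℕ) : ℝ) ≤ 2 * (P t : ℝ) := by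
        exact_mod_cast sum_P t
      set A := ((∑ u ∈ Finset.range (t + 1), P u : ℕ) : ℝ) with hA
      have hA0 : 0 ≤ A := by positivity
      have hPt : (0:ℝ) ≤ (P t : ℝ) := by positivity
      have ht0 : (0:ℝ) ≤ (t:ℝ) := by positivity
      have h5 : 1 + 1 / 1000 * (16 + ((t + 1 : ℕ) : ℝ)) ≤ 2 * ((t:ℝ) + 1) := by
        push_cast
        linarith
      have h6 : 0 ≤ 1 + 1 / 1000 * (16 + ((t + 1 : ℕ) : ℝ)) := by positivity
      calc 1 / 1000 * A * (1 + 1 / 1000 * (16 + ((t + 1 : ℕ) : ℝ)))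
          ≤ 1 / 1000 * (2 * (P t : ℝ)) * (2 * ((t:ℝ) + 1)) := by
            apply mul_le_mul _ h5 h6 (by positivity)
            linarith
        _ = 1 / 10000000 * (40000 * ((t:ℝ) + 1) * (P t : ℝ)) := by ring
        _ ≤ 1 / 10000000 * r := by linarith
        _ ≤ r / 100 := by linarith
  · -- D ≤ 1 / 4 + r
    rcases hk2 with h | h
    · subst h
      simp
      linarith
    · have h1 : (k:ℝ) ≤ (P k : ℝ) := by exact_mod_cast (lt_P k).le
      linarith
  · -- slopes
    intro i hi
    obtain ⟨h1, h2⟩ := hwin i hi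
    rw [hs i h1]
    have h3 : |((∑ j ∈ Finset.range k, eps j i : ℤ) : ℝ)| ≤ (k:ℝ) := by
      have := low_abs k i
      exact_mod_cast this
    have h4 : |((V i - V m : ℤ) : ℝ)| ≤ 14 := by exact_mod_cast h2
    rw [Int.cast_sub] at h4
    rw [abs_le] at *
    constructor
    · linarith [h3.1, h4.1]
    · linarith [h3.2, h4.2]
  · -- heights
    intro i j hij hi hj
    have hl : ∀ l ∈ Finset.Ico i j, l < K ∧ |V l - V m| ≤ 14 := by
      intro l hl
      rw [Finset.mem_Ico] at hl
      apply hwin l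
      have e1 : (i:ℝ) ≤ l := by exact_mod_cast hl.1
      have e2 : (l:ℝ) ≤ j := by exact_mod_cast hl.2.le
      rw [abs_le] at *
      constructor
      · linarith [hi.1]
      · linarith [hj.2]
    have hF : F j - F i = ∑ l ∈ Finset.Ico i j, s l := by
      unfold F
      rw [Finset.sum_Ico_eq_sub _ hij]
    have hcast : ((j:ℝ) - i) = ((Finset.Ico i j).card : ℝ) := by
      rw [Nat.card_Ico, Nat.cast_sub hij]
    have hsum : F j - F i - 1 / 1000 * (V m : ℝ) * (j - i)
        = 1 / 1000 * ((∑ l ∈ Finset.Ico i j, ∑ t ∈ Finset.range k, eps t l : ℤ) : ℝ)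
          + 1 / 1000 * ((∑ l ∈ Finset.Ico i j, (V l - V m) : ℤ) : ℝ) := by
      rw [hF, Finset.sum_congr rfl (fun l hl' => hs l (hl l hl').1)]
      rw [Finset.sum_add_distrib, ← Finset.mul_sum, ← Finset.mul_sum, hcast]
      push_cast
      rw [Finset.sum_sub_distrib, Finset.sum_const, nsmul_eq_mul]
      ring
    rw [hsum]
    have h1 : |(∑ l ∈ Finset.Ico i j, ∑ t ∈ Finset.range k, eps t l : ℤ)|
        ≤ ((∑ t ∈ Finset.range k, P t : ℕ) : ℤ) := by
      rw [Finset.sum_comm]
      refine (Finset.abs_sum_le_sum_abs _ _).trans ?_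
      push_cast
      apply Finset.sum_le_sum
      intro t _
      rw [Finset.sum_Ico_eq_sub _ hij]
      have a1 := T_bound t i
      have a2 := T_bound t j
      rw [abs_le]
      omega
    have h2 : |(∑ l ∈ Finset.Ico i j, (V l - V m) : ℤ)| ≤ 14 * ((Finset.Ico i j).card : ℤ) := by
      refine (Finset.abs_sum_le_sum_abs _ _).trans ?_
      refine (Finset.sum_le_sum (fun l hl' => (hl l hl').2)).trans ?_
      rw [Finset.sum_const, nsmul_eq_mul]
      exact le_of_eq (mul_comm _ _)
    have h1' : |((∑ l ∈ Finset.Ico i j, ∑ t ∈ Finset.range k, eps t l : ℤ) : ℝ)|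
        ≤ ((∑ t ∈ Finset.range k, P t : ℕ) : ℝ) := by exact_mod_cast h1
    have h2' : |((∑ l ∈ Finset.Ico i j, (V l - V m) : ℤ) : ℝ)|
        ≤ 14 * ((Finset.Ico i j).card : ℝ) := by exact_mod_cast h2
    rw [← hcast] at h2'
    set X := ((∑ l ∈ Finset.Ico i j, ∑ t ∈ Finset.range k, eps t l : ℤ) : ℝ) with hX
    set Y := ((∑ l ∈ Finset.Ico i j, (V l - V m) : ℤ) : ℝ) with hY
    have hij' : (i:ℝ) ≤ j := by exact_mod_cast hij
    rw [abs_le] at *
    constructor
    · linarith [h1'.1, h2'.1]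
    · linarith [h1'.2, h2'.2]

end Pool.Agent.R253.PQ
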