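import Pool.Agent.R253.PQ.Stm

/-!
PQ-SEG: the upper gradient inequality along segments.
-/

set_option autoImplicit false
open MeasureTheory Set Metric Finset Filter
open scoped ENNReal Topology

namespace Pool.Agent.R253.PQ

namespace SEG

/-- an isometric path has unit speed -/
theorem unitSpeed (c : ℝ → ℂ) (hc : Isometry c) (s : Set ℝ) : HasUnitSpeedOn c s := by
  unfold HasUnitSpeedOn
  rw [hasConstantSpeedOnWith_iff_ordered]
  intro x hx y hy hxy
  simp only [NNReal.coe_one, one_mul]
  apply le_antisymm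
  · have h1 : eVariationOn c (s ∩ Icc x y) = eVariationOn (id : ℝ → ℝ) (s ∩ Icc x y) := by
      unfold eVariationOn
      simp only [hc.edist_eq, id]
    rw [h1]
    have h2 := ((monotoneOn_id (s := s)).eVariationOn_eq hx hy).le
    simpa using h2
  · have h3 := eVariationOn.edist_le c (s := s ∩ Icc x y) (x := x) (y := y)
      ⟨hx, le_refl _, hxy⟩ ⟨hy, hxy, le_refl _⟩
    rw [hc.edist_eq, edist_dist, Real.dist_eq, abs_sub_comm, abs_of_nonneg (by linarith)] at h3
    exact h3

end SEG

theorem t_SEG : S_SEG := by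
  intro Ω u g hg a b hab
  rcases eq_or_ne a b with rfl | hne
  · simp
  set L := dist a b with hL
  have hL0 : 0 < L := dist_pos.2 hne
  set c : ℝ → ℂ := fun t => AffineMap.lineMap a b (L⁻¹ * t) with hc
  have hiso : Isometry c := by
    apply Isometry.of_dist_eq
    intro x y
    simp only [hc]
    rw [dist_lineMap_lineMap, ← hL, Real.dist_eq, Real.dist_eq, ← mul_sub, abs_mul,
      abs_of_pos (inv_pos.2 hL0)]
    field_simp
  have h1 := hg.2 c L hL0.le (SEG.unitSpeed c hiso _) (by
    intro t ht
    apply hab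
    rw [segment_eq_image_lineMap]
    refine ⟨L⁻¹ * t, ⟨by have := ht.1; positivity, ?_⟩, rfl⟩
    rw [inv_mul_le_iff₀ hL0]; linarith [ht.2])
  have h2 : c 0 = a := by simp [hc]
  have h3 : c L = b := by simp [hc, hL0.ne']
  rw [h2, h3] at h1
  refine h1.trans (le_of_eq ?_)
  have himg : (fun t : ℝ => L * t) '' Icc 0 1 = Icc 0 L := by
    rw [Set.image_mul_left_Icc hL0.le zero_le_one]; simp
  rw [← himg, lintegral_image_eq_lintegral_abs_deriv_mul (f' := fun _ => L) measurableSet_Icc]
  · rw [abs_of_pos hL0, lintegral_const_mul' _ _ ENNReal.ofReal_ne_top]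
    congr 1
    apply lintegral_congr
    intro t
    simp only [hc]
    congr 2
    field_simp
  · intro x _
    simpa using ((hasDerivAt_id x).const_mul L).hasDerivWithinAt
  · intro x _ y _ hxy
    exact mul_left_cancel₀ hL0.ne' hxy

end Pool.Agent.R253.PQ
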