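import Pool.Agent.R253.PQ.Stm

/-!
PQ-SMALL: small balls (two adjacent convex tubes).
-/

set_option autoImplicit false
open MeasureTheory Set Metric Finset Filter
open scoped ENNReal Topology

namespace Pool.Agent.R253.PQ.SMALL

theorem F_succ (j : ℕ) : F (j + 1) = F j + s j := by
  unfold F; rw [Finset.sum_range_succ]

/-- points of the edge -/
theorem seg_pt (j : ℕ) (X : ℂ) (hX : X ∈ segment ℝ (gam j) (gam (j + 1))) :
    ∃ t : ℝ, 0 ≤ t ∧ t ≤ 1 ∧ X.re = j + t ∧ X.im = F j + t * s j := by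
  rw [segment_eq_image] at hX
  obtain ⟨t, ⟨h0, h1⟩, rfl⟩ := hX
  refine ⟨t, h0, h1, ?_, ?_⟩
  · simp [gam]; ring
  · simp [gam, F_succ]; ring

theorem convC (n : ℕ) : Convex ℝ (C n) := (convex_segment _ _).thickening _

theorem re_bound (h : S_ELEM) (n : ℕ) (z : ℂ) (hz : z ∈ C n) :
    (n:ℝ) - 1 / 1000 < z.re ∧ z.re < n + 1 + 1 / 1000 := by
  obtain ⟨X, hX, hd⟩ := mem_thickening_iff.1 hz
  obtain ⟨t, h0, h1, hre, him⟩ := seg_pt n X hX
  have hw1 := (h.2.2.1 n).2.1
  have d1 : |z.re - X.re| < wd n := by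
    refine lt_of_le_of_lt ?_ hd
    rw [← Complex.sub_re, Complex.dist_eq]; exact Complex.abs_re_le_norm _
  rw [hre] at d1
  have e1 := abs_lt.1 d1
  constructor <;> linarith [e1.1, e1.2]

theorem claim (h : S_ELEM) (i : ℕ) (z0 z1 : ℂ) (h0 : z0 ∈ C i) (h1 : z1 ∈ C (i + 1)) (ε : ℝ)
    (hε : 0 < ε) : ∃ e, e ∈ C i ∧ e ∈ C (i + 1) ∧ dist e z1 ≤ dist z0 z1 + ε := by
  obtain ⟨hs, hss, hwd, -⟩ := h
  have hw0 := (hwd i).1
  have hw0' := (hwd (i + 1)).1
  have hww := (hwd i).2.2
  have hs1 := hs i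
  have hs2 := hs (i + 1)
  have hs3 := hss i
  have hball : ∀ e, dist e (gam (i + 1)) < wd i → e ∈ C i := fun e he =>
    mem_thickening_iff.2 ⟨gam (i + 1), right_mem_segment _ _ _, he⟩
  have hg : gam (i + 1) ∈ C (i + 1) := self_subset_thickening hw0' _ (left_mem_segment _ _ _)
  by_cases hc : dist z1 (gam (i + 1)) < wd i
  · exact ⟨z1, hball _ hc, h1, by rw [dist_self]; positivity⟩
  push Not at hc
  obtain ⟨X, hX, hdX⟩ := mem_thickening_iff.1 h0
  obtain ⟨t0, ht0, ht0', hXre, hXim⟩ := seg_pt i X hX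
  obtain ⟨Y, hY, hdY⟩ := mem_thickening_iff.1 h1
  obtain ⟨t, ht, ht', hYre, hYim⟩ := seg_pt (i + 1) Y hY
  set g := gam (i + 1) with hgdef
  have hgre : g.re = i + 1 := by simp [hgdef, gam]
  have hgim : g.im = F i + s i := by rw [hgdef]; simp only [gam]; exact F_succ i
  have hF1 : F (i + 1) = F i + s i := F_succ i
  set a := z1.re - Y.re with ha
  set b := z1.im - Y.im with hb
  have da : |a| ≤ wd (i + 1) := by
    refine le_trans ?_ hdY.le
    rw [ha, ← Complex.sub_re, Complex.dist_eq]; exact Complex.abs_re_le_norm _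
  have db : |b| ≤ wd (i + 1) := by
    refine le_trans ?_ hdY.le
    rw [hb, ← Complex.sub_im, Complex.dist_eq]; exact Complex.abs_im_le_norm _
  push_cast at hYre
  have hz1re : z1.re = i + 1 + t + a := by rw [ha, hYre]; ring
  have hz1im : z1.im = F i + s i + t * s (i + 1) + b := by rw [hb, hYim, hF1]; ring
  -- lower bound for t
  have hi0 : (0:ℝ) ≤ i := Nat.cast_nonneg i
  push_cast at hs2
  have hD : dist z1 g ≤ t * (1 + |s (i + 1)|) + 2 * wd (i + 1) := by
    rw [Complex.dist_eq]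
    refine (Complex.norm_le_abs_re_add_abs_im _).trans ?_
    rw [Complex.sub_re, Complex.sub_im, hz1re, hz1im, hgre, hgim]
    have e1 : (i:ℝ) + 1 + t + a - (i + 1) = t + a := by ring
    have e2 : F i + s i + t * s (i + 1) + b - (F i + s i) = t * s (i + 1) + b := by ring
    rw [e1, e2]
    have e3 := abs_add_le t a
    have e4 := abs_add_le (t * s (i + 1)) b
    rw [abs_mul, abs_of_nonneg ht] at e4
    rw [abs_of_nonneg ht] at e3
    have e5 : t * (1 + |s (i + 1)|) = t + t * |s (i + 1)| := by ring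
    rw [e5]
    linarith
  have hprod : (1 + |s i|) * (1 + |s (i + 1)|) ≤ ((i:ℝ) + 3) ^ 2 := by
    have : (1 + |s i|) * (1 + |s (i + 1)|) ≤ ((i:ℝ) + 3) * ((i:ℝ) + 3) := by
      apply mul_le_mul <;> first | positivity | linarith
    rw [sq]; exact this
  have hprod' : wd (i + 1) * ((1 + |s i|) * (1 + |s (i + 1)|)) ≤ wd i / 100 := by
    have h9 := mul_le_mul_of_nonneg_left hprod hw0'.le
    have h8 : wd (i + 1) * ((i:ℝ) + 3) ^ 2 = wd (i + 1) * (100 * ((i:ℝ) + 3) ^ 2) / 100 := by ring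
    rw [h8] at h9
    linarith
  have hw' : wd (i + 1) * 9 ≤ wd i / 100 := by
    have : wd (i + 1) * (100 * 9) ≤ wd (i + 1) * (100 * ((i:ℝ) + 3) ^ 2) := by
      apply mul_le_mul_of_nonneg_left _ hw0'.le
      have : (9:ℝ) ≤ ((i:ℝ) + 3) ^ 2 := by clear * - hi0; nlinarith
      linarith
    linarith
  have htl : wd (i + 1) * (1 + |s i|) ≤ t / 2 := by
    have hpos : 0 < 1 + |s (i + 1)| := by positivity
    apply le_of_mul_le_mul_right _ hpos
    have : wd (i + 1) * (1 + |s i|) * (1 + |s (i + 1)|) =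
      wd (i + 1) * ((1 + |s i|) * (1 + |s (i + 1)|)) := by ring
    rw [this]
    have h7 : t / 2 * (1 + |s (i + 1)|) = (t * (1 + |s (i + 1)|)) / 2 := by ring
    rw [h7]
    linarith
  have hss' : 1 / 2 ≤ 1 + s i * s (i + 1) := by
    have e2 : (s (i + 1) - s i) ^ 2 ≤ (1 / 4) ^ 2 := sq_le_sq' (abs_le.1 hs3).1 (abs_le.1 hs3).2
    have e3 : 0 ≤ (s i + s (i + 1)) ^ 2 := sq_nonneg _
    have e4 : s i * s (i + 1) = ((s i + s (i + 1)) ^ 2 - (s (i + 1) - s i) ^ 2) / 4 := by ring
    rw [e4]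
    linarith
  have hin : 0 ≤ t * (1 + s i * s (i + 1)) + (a + s i * b) := by
    have e1 : |a + s i * b| ≤ wd (i + 1) * (1 + |s i|) := by
      refine (abs_add_le _ _).trans ?_
      rw [abs_mul]
      have h9 := mul_le_mul_of_nonneg_left db (abs_nonneg (s i))
      have h8 : wd (i + 1) * (1 + |s i|) = wd (i + 1) + |s i| * wd (i + 1) := by ring
      rw [h8]
      linarith
    have e2 := (abs_le.1 e1).1
    have e3 : t * (1 / 2) ≤ t * (1 + s i * s (i + 1)) := mul_le_mul_of_nonneg_left hss' ht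
    linarith
  have hXg : dist z1 g ≤ dist z1 X := by
    rw [Complex.dist_eq, Complex.dist_eq]
    rw [← pow_le_pow_iff_left₀ (norm_nonneg _) (norm_nonneg _) two_ne_zero, Complex.sq_norm,
      Complex.sq_norm, Complex.normSq_apply, Complex.normSq_apply]
    simp only [Complex.sub_re, Complex.sub_im, hz1re, hz1im, hgre, hgim, hXre, hXim]
    have hτ : 0 ≤ (1 - t0) * (t * (1 + s i * s (i + 1)) + (a + s i * b)) :=
      mul_nonneg (by linarith) hin
    have e1 := sq_nonneg (1 - t0)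
    have e2 := sq_nonneg ((1 - t0) * s i)
    have key : ((i:ℝ) + 1 + t + a - (i + t0)) * ((i:ℝ) + 1 + t + a - (i + t0)) +
        (F i + s i + t * s (i + 1) + b - (F i + t0 * s i)) *
          (F i + s i + t * s (i + 1) + b - (F i + t0 * s i)) =
        (((i:ℝ) + 1 + t + a - (i + 1)) * ((i:ℝ) + 1 + t + a - (i + 1)) +
        (F i + s i + t * s (i + 1) + b - (F i + s i)) *
          (F i + s i + t * s (i + 1) + b - (F i + s i))) +
        2 * ((1 - t0) * (t * (1 + s i * s (i + 1)) + (a + s i * b))) + (1 - t0) ^ 2 +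
          ((1 - t0) * s i) ^ 2 := by ring
    rw [key]
    linarith
  -- the point
  set D := dist z1 g with hDdef
  have hDpos : 0 < D := hw0.trans_le hc
  set ε' := min ε (wd i) with hε'
  have hε0 : 0 < ε' := lt_min hε hw0
  have hε1 : ε' ≤ ε := min_le_left _ _
  have hε2 : ε' ≤ wd i := min_le_right _ _
  set q := (wd i - ε') / D with hq
  have hq0 : 0 ≤ q := div_nonneg (by linarith) hDpos.le
  have hq1 : q ≤ 1 := by rw [hq, div_le_one hDpos]; linarith
  have hqD : q * D = wd i - ε' := by rw [hq]; field_simp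
  refine ⟨g + q • (z1 - g), hball _ ?_, (convC (i + 1)).add_smul_sub_mem hg h1 ⟨hq0, hq1⟩, ?_⟩
  · rw [Complex.dist_eq]
    have : g + q • (z1 - g) - g = q • (z1 - g) := by ring
    rw [this, norm_smul, Real.norm_of_nonneg hq0, ← Complex.dist_eq, ← hDdef, hqD]
    linarith
  · rw [Complex.dist_eq]
    have : g + q • (z1 - g) - z1 = (-(1 - q)) • (z1 - g) := by
      simp only [Complex.real_smul]; push_cast; ring
    rw [this, norm_smul, Real.norm_eq_abs, abs_neg, abs_of_nonneg (by linarith), ← Complex.dist_eq,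
      ← hDdef]
    have e1 : (1 - q) * D = D - (wd i - ε') := by rw [sub_mul, hqD, one_mul]
    have e2 : dist z1 X ≤ dist z0 z1 + dist z0 X := by
      rw [dist_comm z0 z1]; exact dist_triangle _ _ _
    rw [e1]
    linarith

theorem two (h : S_ELEM) (i : ℕ) (z0 z1 p : ℂ) (h0 : z0 ∈ C i) (h1 : z1 ∈ C (i + 1))
    (r κ : ℝ) (v : ℂ → ℝ) (hp : dist z0 p < r) (hp' : dist z1 p < r) (hd : dist z0 z1 < r)
    (hκ : 0 ≤ κ) (hv : SL (Om ∩ ball p (8 * r)) v κ) : |v z0 - v z1| ≤ 3 * κ * r := by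
  obtain ⟨e, he0, he1, hde⟩ := claim h i z0 z1 h0 h1 (r - dist z0 z1) (by linarith)
  have hr : 0 < r := dist_nonneg.trans_lt hd
  have hin : ∀ n x y, x ∈ C n → y ∈ C n → dist x p < 8 * r → dist y p < 8 * r →
      segment ℝ x y ⊆ Om ∩ ball p (8 * r) := by
    intro n x y hx hy hxp hyp z hz
    exact ⟨mem_iUnion.2 ⟨n, (convC n).segment_subset hx hy hz⟩,
      (convex_ball p (8 * r)).segment_subset hxp hyp hz⟩
  have hep : dist e p < 8 * r := by
    have := dist_triangle e z1 p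
    linarith
  have e1 := hv z0 e (hin i z0 e h0 he0 (by linarith) hep)
  have e2 := hv e z1 (hin (i + 1) e z1 he1 h1 hep (by linarith))
  have e3 := abs_sub_le (v z0) (v e) (v z1)
  have e4 : dist z0 e ≤ dist z0 z1 + dist e z1 := by
    rw [dist_comm e z1]; exact dist_triangle _ _ _
  have e5 : dist z0 e + dist e z1 ≤ 3 * r := by linarith
  calc |v z0 - v z1| ≤ κ * dist z0 e + κ * dist e z1 := e3.trans (add_le_add e1 e2)
    _ = κ * (dist z0 e + dist e z1) := by ring
    _ ≤ κ * (3 * r) := mul_le_mul_of_nonneg_left e5 hκ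
    _ = _ := by ring

end Pool.Agent.R253.PQ.SMALL

namespace Pool.Agent.R253.PQ

open SMALL in
theorem t_SMALL (h : S_ELEM) : S_SMALL := by
  intro p r κ v hp hr hr9 hκ hv z hz
  obtain ⟨m, hm⟩ := mem_iUnion.1 hp
  obtain ⟨n, hn⟩ := mem_iUnion.1 hz.1
  have hzp : dist z p < r := hz.2
  have b1 := re_bound h m p hm
  have b2 := re_bound h n z hn
  have d1 : |z.re - p.re| < r := by
    refine lt_of_le_of_lt ?_ hzp
    rw [← Complex.sub_re, Complex.dist_eq]; exact Complex.abs_re_le_norm _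
  have e1 := abs_lt.1 d1
  have hnm : n ≤ m + 1 := by
    by_contra hc
    have : (m:ℝ) + 2 ≤ n := by exact_mod_cast (by omega : m + 2 ≤ n)
    linarith [e1.2]
  have hmn : m ≤ n + 1 := by
    by_contra hc
    have : (n:ℝ) + 2 ≤ m := by exact_mod_cast (by omega : n + 2 ≤ m)
    linarith [e1.1]
  have hcase : n = m ∨ n = m + 1 ∨ m = n + 1 := by omega
  rcases hcase with rfl | rfl | rfl
  · have hin : segment ℝ z p ⊆ Om ∩ ball p (8 * r) := by
      intro x hx
      refine ⟨mem_iUnion.2 ⟨n, (convC n).segment_subset hn hm hx⟩, ?_⟩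
      refine (convex_ball p (8 * r)).segment_subset ?_ (mem_ball_self (by linarith)) hx
      rw [mem_ball]; linarith
    have := hv z p hin
    refine this.trans ?_
    have : κ * dist z p ≤ κ * r := mul_le_mul_of_nonneg_left hzp.le hκ
    have h0 : 0 ≤ κ * r := mul_nonneg hκ hr.le
    nlinarith
  · rw [abs_sub_comm]
    exact two h m p z p hm hn r κ v (by rw [dist_self]; exact hr) hzp
      (by rw [dist_comm]; exact hzp) hκ hv
  · exact two h n z p p hn hm r κ v hzp (by rw [dist_self]; exact hr) hzp hκ hv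

end Pool.Agent.R253.PQ
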