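import Pool.Agent.R253.PQ.Defs

/-!
The pieces of the proof as exact statements; proofs in `NOTES.md`.
-/

set_option autoImplicit false
open MeasureTheory Set Metric Finset Filter
open scoped ENNReal Topology

namespace Pool.Agent.R253.PQ

/-- PQ-SEG -/
def S_SEG : Prop := ∀ (Ω : Set ℂ) (u : ℂ → ℝ) (g : ℂ → ℝ≥0∞), IsUpperGradient Ω u g →
  ∀ a b, segment ℝ a b ⊆ Ω → ENNReal.ofReal |u a - u b| ≤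
    ENNReal.ofReal (dist a b) * ∫⁻ t in Icc (0:ℝ) 1, g (AffineMap.lineMap a b t)

/-- PQ-ACL -/
def S_ACL : Prop := ∀ (W : Set ℂ), IsOpen W → ∀ (u : ℂ → ℝ) (g : ℂ → ℝ≥0∞), Measurable g →
  (∀ a b, segment ℝ a b ⊆ W → ENNReal.ofReal |u a - u b| ≤
    ENNReal.ofReal (dist a b) * ∫⁻ t in Icc (0:ℝ) 1, g (AffineMap.lineMap a b t)) →
  ∀ κ : ℝ, 0 ≤ κ → (∀ᵐ z ∂(volume.restrict W), g z ≤ ENNReal.ofReal κ) →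
  ∃ v : ℂ → ℝ, (∀ᵐ z ∂(volume.restrict W), v z = u z) ∧ SL W v κ

/-- PQ-SD: the polygon at the scale `r` -/
def S_SD : Prop := ∀ (r : ℝ) (m : ℕ), 9 / 10 ≤ r → ∃ S E D : ℝ, 0 ≤ E ∧ 0 ≤ D ∧
  E * (1 + D) ≤ r / 100 ∧ D ≤ 1 / 4 + r ∧
  (∀ i : ℕ, |(i:ℝ) - m| ≤ 6 * r → |s i - S| ≤ D) ∧
  ∀ i j : ℕ, i ≤ j → |(i:ℝ) - m| ≤ 6 * r → |(j:ℝ) - m| ≤ 6 * r →
    |F j - F i - S * (j - i)| ≤ (j - i) / 4 + E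

/-- PQ-SL: elementary facts on slopes and widths -/
def S_ELEM : Prop :=
  (∀ i, |s i| ≤ i + 1) ∧ (∀ i, |s (i + 1) - s i| ≤ 1 / 4) ∧
  (∀ n, 0 < wd n ∧ wd n ≤ 1 / 1000 ∧ wd (n + 1) * (100 * (n + 3) ^ 2) ≤ wd n) ∧
  ∀ N, Summable (fun n => 100 * ((N + 1 + n : ℕ) + 2 : ℝ) ^ 3 * wd (N + 1 + n)) ∧
    ∑' n, 100 * ((N + 1 + n : ℕ) + 2 : ℝ) ^ 3 * wd (N + 1 + n) ≤ wd N ^ 2 / 2

/-- PQ-SMALL: small balls -/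
def S_SMALL : Prop := ∀ (p : ℂ) (r κ : ℝ) (v : ℂ → ℝ), p ∈ Om → 0 < r → r < 9 / 10 → 0 ≤ κ →
  SL (Om ∩ ball p (8 * r)) v κ → ∀ z ∈ Om ∩ ball p r, |v z - v p| ≤ 3 * κ * r

/-- PQ-RAD: a pure inequality -/
def S_RAD : Prop := ∀ (S E w r a x y fa fx fy : ℝ) (p : ℂ), 0 ≤ E → 0 < w → a ≤ x → x ≤ y →
  |fx - fa - S * (x - a)| ≤ (x - a) / 4 + E → |fy - fx - S * (y - x)| ≤ (y - x) / 4 + E →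
  dist (⟨y, fy⟩ : ℂ) p ≤ w → dist (⟨a, fa⟩ : ℂ) p ≤ r + w →
  12 * (E + w) ≤ (x - a) * √(1 + S ^ 2) → dist (⟨x, fx⟩ : ℂ) p < r

/-- PQ-PATH: moving along the polygon -/
def S_PATH : Prop := ∀ (p : ℂ) (R κ A a b : ℝ) (v : ℂ → ℝ), 0 ≤ κ → 0 ≤ a → a ≤ b →
  (∀ i : ℕ, ⌊a⌋₊ ≤ i → i ≤ ⌊b⌋₊ → |s i| ≤ A) → (∀ x, a ≤ x → x ≤ b → dist (gx x) p < R) →
  SL (Om ∩ ball p R) v κ → |v (gx a) - v (gx b)| ≤ κ * ((1 + A) * (b - a))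

/-- PQ-BIG: large balls -/
def S_BIG : Prop := ∀ (p : ℂ) (r κ : ℝ) (v : ℂ → ℝ), p ∈ Om → 9 / 10 ≤ r → 0 ≤ κ →
  SL (Om ∩ ball p (8 * r)) v κ → ∃ (c : ℝ) (N : ℕ),
    (∃ X ∈ segment ℝ (gam N) (gam (N + 1)), dist X p < r) ∧
    ∀ z ∈ Om ∩ ball p r, |v z - c| ≤ 3 * κ * r ∨
      ∃ n, N < n ∧ z ∈ C n ∧ |v z - c| ≤ κ * (n + 3) ^ 2

/-- PQ-VOL: areas of the tubes -/
def S_VOL : Prop :=
  (∀ n, volume (C n) ≤ ENNReal.ofReal (10 * (n + 2) * wd n)) ∧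
  ∀ (N : ℕ) (p : ℂ) (r : ℝ), wd N ≤ r → (∃ X ∈ segment ℝ (gam N) (gam (N + 1)), dist X p < r) →
    ENNReal.ofReal (wd N ^ 2 / 2) ≤ volume (Om ∩ ball p r)

/-- PQ-MOM: the mean of the absolute values of the slopes -/
def S_MOM : Prop := ∀ A : ℝ, ∃ K : ℕ, F (4 * P K) = 0 ∧
  A * (4 * P K : ℕ) ≤ ∑ i ∈ range (4 * P K), |s i|

/-- PQ-NQC: length of curves in the domain -/
def S_NQC : Prop := ∀ (n : ℕ) (c : ℝ → ℂ), ContinuousOn c (Icc 0 1) → c 0 = gam 0 → c 1 = gam n →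
  (∀ t ∈ Icc (0:ℝ) 1, c t ∈ Om) →
  ENNReal.ofReal (∑ i ∈ range n, (|s i| - 1 / 100)) ≤ eVariationOn c (Icc 0 1)

end Pool.Agent.R253.PQ
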