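import Pool.Agent.R253.PQ.Stm

/-!
PQ-VOL: areas of the tubes.
-/

set_option autoImplicit false
open MeasureTheory Set Metric Finset Filter
open scoped ENNReal Topology

namespace Pool.Agent.R253.PQ.VOL

theorem F_succ (j : ℕ) : F (j + 1) = F j + s j := by
  unfold F; rw [Finset.sum_range_succ]

/-- points of the edge -/
theorem seg_pt (j : ℕ) (X : ℂ) (hX : X ∈ segment ℝ (gam j) (gam (j + 1))) :
    ∃ t : ℝ, 0 ≤ t ∧ t ≤ 1 ∧ X.re = j + t ∧ X.im = F j + t * s j := by
  rw [segment_eq_image] at hX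
  obtain ⟨t, ⟨h0, h1⟩, rfl⟩ := hX
  refine ⟨t, h0, h1, ?_, ?_⟩
  · simp [gam]; ring
  · simp [gam, F_succ]; ring

theorem sub_region (h : S_ELEM) (n : ℕ) : C n ⊆ Complex.measurableEquivRealProd ⁻¹'
    (regionBetween (fun x => F n + s n * (x - n) - wd n * (1 + |s n|))
      (fun x => F n + s n * (x - n) + wd n * (1 + |s n|)) (Ioo ((n:ℝ) - 1) (n + 2))) := by
  intro z hz
  obtain ⟨X, hX, hd⟩ := mem_thickening_iff.1 hz
  obtain ⟨t, h0, h1, hre, him⟩ := seg_pt n X hX
  obtain ⟨-, -, hwd, -⟩ := h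
  have hw1 := (hwd n).2.1
  have hw0 := (hwd n).1
  have d1 : |z.re - X.re| < wd n := by
    refine lt_of_le_of_lt ?_ hd
    rw [← Complex.sub_re, Complex.dist_eq]; exact Complex.abs_re_le_norm _
  have d2 : |z.im - X.im| < wd n := by
    refine lt_of_le_of_lt ?_ hd
    rw [← Complex.sub_im, Complex.dist_eq]; exact Complex.abs_im_le_norm _
  rw [hre] at d1
  rw [him] at d2
  have e1 := abs_lt.1 d1
  have hmain : |z.im - (F n + s n * (z.re - n))| < wd n * (1 + |s n|) := by
    have e3 : z.im - (F n + s n * (z.re - n)) =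
        (z.im - (F n + t * s n)) - s n * (z.re - (n + t)) := by ring
    rw [e3]
    refine (abs_sub _ _).trans_lt ?_
    rw [abs_mul]
    have : |s n| * |z.re - (n + t)| ≤ |s n| * wd n :=
      mul_le_mul_of_nonneg_left d1.le (abs_nonneg _)
    nlinarith
  have e2 := abs_lt.1 hmain
  simp only [Set.mem_preimage, regionBetween, Set.mem_setOf_eq,
    Complex.measurableEquivRealProd_apply, Set.mem_Ioo]
  refine ⟨⟨by linarith [e1.1], by linarith [e1.2]⟩, by linarith [e2.1], by linarith [e2.2]⟩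

theorem upper (h : S_ELEM) (n : ℕ) : volume (C n) ≤ ENNReal.ofReal (10 * (n + 2) * wd n) := by
  refine (measure_mono (sub_region h n)).trans ?_
  rw [Complex.volume_preserving_equiv_real_prod.measure_preimage_equiv]
  have hs := h.1 n
  have hw0 := (h.2.2.1 n).1
  rw [MeasureTheory.Measure.volume_eq_prod, volume_regionBetween_eq_lintegral (by fun_prop)
    (by fun_prop) measurableSet_Ioo]
  have : ∀ y : ℝ, ENNReal.ofReal (((fun x => F n + s n * (x - n) + wd n * (1 + |s n|)) -
      (fun x => F n + s n * (x - n) - wd n * (1 + |s n|))) y) =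
      ENNReal.ofReal (2 * (wd n * (1 + |s n|))) := by
    intro y; congr 1; simp only [Pi.sub_apply]; ring
  simp only [this]
  rw [lintegral_const, Measure.restrict_apply MeasurableSet.univ, univ_inter, Real.volume_Ioo,
    ← ENNReal.ofReal_mul (by positivity)]
  apply ENNReal.ofReal_le_ofReal
  have h2 : wd n * |s n| ≤ wd n * (n + 1) := mul_le_mul_of_nonneg_left hs hw0.le
  have h3 : (0:ℝ) ≤ n := Nat.cast_nonneg n
  have h4 : 0 ≤ wd n * n := mul_nonneg hw0.le h3
  nlinarith

end Pool.Agent.R253.PQ.VOL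

namespace Pool.Agent.R253.PQ

theorem t_VOL (h : S_ELEM) : S_VOL := by
  refine ⟨VOL.upper h, ?_⟩
  rintro N p r hr ⟨X, hX, hd⟩
  have hw0 := (h.2.2.1 N).1
  set w := wd N with hw
  have hr0 : 0 < r := hw0.trans_le hr
  set c : ℂ := X + ((w / (2 * r) : ℝ) : ℂ) * (p - X) with hc
  have hq0 : 0 ≤ w / (2 * r) := by positivity
  have hq1 : w / (2 * r) ≤ 1 / 2 := by
    rw [div_le_iff₀ (by positivity)]; linarith
  have hnorm : ‖p - X‖ < r := by rw [← Complex.dist_eq, dist_comm]; exact hd
  have h1 : dist c X < w / 2 := by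
    rw [Complex.dist_eq, hc]
    have : X + ((w / (2 * r) : ℝ) : ℂ) * (p - X) - X = ((w / (2 * r) : ℝ) : ℂ) * (p - X) := by ring
    rw [this, norm_mul, Complex.norm_real, Real.norm_of_nonneg hq0]
    calc w / (2 * r) * ‖p - X‖ < w / (2 * r) * r := mul_lt_mul_of_pos_left hnorm (by positivity)
      _ = w / 2 := by field_simp
  have h2 : dist c p ≤ r - w / 2 := by
    rw [Complex.dist_eq, hc]
    have : X + ((w / (2 * r) : ℝ) : ℂ) * (p - X) - p = -(((1 - w / (2 * r) : ℝ) : ℂ) * (p - X)) := by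
      push_cast; ring
    rw [this, norm_neg, norm_mul, Complex.norm_real, Real.norm_of_nonneg (by linarith)]
    calc (1 - w / (2 * r)) * ‖p - X‖ ≤ (1 - w / (2 * r)) * r :=
          mul_le_mul_of_nonneg_left hnorm.le (by linarith)
      _ = r - w / 2 := by field_simp
  have hsub : ball c (w / 2) ⊆ Om ∩ ball p r := by
    intro z hz
    have hz' : dist z c < w / 2 := hz
    refine ⟨mem_iUnion.2 ⟨N, mem_thickening_iff.2 ⟨X, hX, ?_⟩⟩, ?_⟩
    · calc dist z X ≤ dist z c + dist c X := dist_triangle _ _ _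
        _ < w / 2 + w / 2 := add_lt_add hz' h1
        _ = w := by ring
    · rw [mem_ball]
      calc dist z p ≤ dist z c + dist c p := dist_triangle _ _ _
        _ < w / 2 + (r - w / 2) := add_lt_add_of_lt_of_le hz' h2
        _ = r := by ring
  refine le_trans ?_ (measure_mono hsub)
  rw [Complex.volume_ball, ← ENNReal.ofReal_pow (by positivity)]
  have hpi : (NNReal.pi : ENNReal) = ENNReal.ofReal Real.pi := by
    rw [ENNReal.ofReal, Real.toNNReal_of_nonneg Real.pi_pos.le]; rfl
  rw [hpi, ← ENNReal.ofReal_mul (by positivity)]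
  apply ENNReal.ofReal_le_ofReal
  have := Real.pi_gt_three
  nlinarith [sq_nonneg w]

end Pool.Agent.R253.PQ
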